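import Mathlib
import Pool.Agent.N176.OW.Stm2

set_option autoImplicit false

/-!
# Shifted digits: statements of the steps

`c : ℕ → ℤ` is a sequence of shifts; the integer with the first `p` digits is shifted by `c p`.
-/

namespace Pool.Agent.N176.SH

open Finset Filter Topology MeasureTheory
open Pool.Agent.H305R2 (roughPart)
open Pool.Agent.N176.OW (cell kap VT)

/-- the shifted integer -/
def sh (c : ℕ → ℤ) (p m : ℕ) : ℕ := ((m : ℤ) + c p).toNat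

/-- the exponents in `T` of the integer `n` of level `t` -/
def hits (c : ℕ → ℤ) (T : Finset ℕ) (b t n : ℕ) : Finset ℕ :=
  T.filter (fun p => (roughPart p (sh c p (n / b ^ (t - p)))).Prime)

/-- degenerate pairs -/
abbrev Deg (c : ℕ → ℤ) (b t p q n : ℕ) : Prop :=
  ((n / b ^ (t - q) : ℕ) : ℤ) + c q = (b : ℤ) ^ (q - p) * (((n / b ^ (t - p) : ℕ) : ℤ) + c p)

/-- the exponents `q` in `T` which do not come from a smaller exponent `p` in `T` -/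
def mhits (c : ℕ → ℤ) (T : Finset ℕ) (b t n : ℕ) : Finset ℕ :=
  (hits c T b t n).filter (fun q => ∀ p ∈ hits c T b t n, p < q → ¬ Deg c b t p q n)

/-- the number of levels which are degenerate with the level `p` (`n` has the level `t`) -/
def run (c : ℕ → ℤ) (b t p n : ℕ) : ℕ := ((Ioc p t).filter (fun q => Deg c b t p q n)).card

/-- some exponent in `T` of `n` has a large smooth part -/
def Big (c : ℕ → ℤ) (T : Finset ℕ) (b t x n : ℕ) : Prop :=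
  ∃ p ∈ T, (roughPart p (sh c p (n / b ^ (t - p)))).Prime ∧
    Real.exp (x * Real.log b / 8) ≤
      ((sh c p (n / b ^ (t - p)) / roughPart p (sh c p (n / b ^ (t - p))) : ℕ) : ℝ)

/-- the conditions on the shifts -/
structure Ok (b A : ℕ) (c : ℕ → ℤ) : Prop where
  hb : 2 ≤ b
  hA : 64 ≤ A
  size : ∀ p ≥ A, |c p| * (b : ℤ) ^ (2 * (p / A) + 1) ≤ (b : ℤ) ^ p
  deg : (∀ p, c p = 0) ∨ (∀ p, c p = 1) ∨ ∀ p ≥ A, ∀ q > p, ∀ r : ℤ, 0 ≤ r → r < (b : ℤ) ^ (q - p) →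
    r + c q ≠ (b : ℤ) ^ (q - p) * c p

/-- TASK TUA: sieve bound for a set of exponents and fixed nondegenerate offsets. -/
def S_TUA : Prop := ∀ b : ℕ, 2 ≤ b → ∃ C : ℝ, 1 ≤ C ∧ ∃ P : ℕ, ∀ x ≥ P, ∀ F : Finset ℕ,
  (∀ p ∈ F, x < p ∧ p ≤ 2 * x) → (F.card : ℝ) ^ 2 ≤ Real.log x → ∀ p1 ∈ F, (∀ p ∈ F, p1 ≤ p) →
  ∀ z : ℕ, 64 * z ≤ x → ∀ e : ℕ → ℤ,
  (∀ p ∈ F, |e p| < (b : ℤ) ^ (p + 1) ∧ -(b : ℤ) ^ (p - z) ≤ 2 * e p) →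
  (∀ p ∈ F, ∀ q ∈ F, p < q → e q ≠ (b : ℤ) ^ (q - p) * e p) → ∀ j : ℕ, 1 ≤ j →
  (((cell b z p1 j).filter (fun m : ℕ => ∀ p ∈ F,
    (roughPart p ((b : ℤ) ^ (p - p1) * (m : ℤ) + e p).toNat).Prime ∧
    ((((b : ℤ) ^ (p - p1) * (m : ℤ) + e p).toNat / roughPart p ((b : ℤ) ^ (p - p1) * (m : ℤ) + e p).toNat : ℕ) : ℝ) <
      Real.exp (x * Real.log b / 8))).card : ℝ) ≤
    (C * F.card * (Real.log x / x)) ^ F.card * (b : ℝ) ^ (p1 - z)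

/-- TASK TU: sieve bound for a set of exponents and fixed nondegenerate last digits. -/
def S_TU : Prop := ∀ (b A : ℕ) (c : ℕ → ℤ), Ok b A c → ∃ C : ℝ, 1 ≤ C ∧ ∃ P : ℕ, ∀ x ≥ P,
  ∀ F : Finset ℕ,
  (∀ p ∈ F, x < p ∧ p ≤ 2 * x) → (F.card : ℝ) ^ 2 ≤ Real.log x → ∀ p1 ∈ F, (∀ p ∈ F, p1 ≤ p) →
  ∀ z : ℕ, A * z ≤ x → ∀ t : ℕ, 2 * x ≤ t → ∀ r < b ^ (t - p1),
  (∀ p ∈ F, ∀ q ∈ F, p < q → ¬ Deg c b t p q r) → ∀ j : ℕ, 1 ≤ j →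
  (((cell b z p1 j).filter (fun m => ∀ p ∈ F,
    (roughPart p (sh c p ((b ^ (t - p1) * m + r) / b ^ (t - p)))).Prime ∧
    ((sh c p ((b ^ (t - p1) * m + r) / b ^ (t - p)) /
      roughPart p (sh c p ((b ^ (t - p1) * m + r) / b ^ (t - p))) : ℕ) : ℝ) <
      Real.exp (x * Real.log b / 8))).card : ℝ) ≤
    (C * F.card * (Real.log x / x)) ^ F.card * (b : ℝ) ^ (p1 - z)

/-- TASK DS: the sum over the last digits. -/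
def S_DS : Prop := ∀ (b A : ℕ) (c : ℕ → ℤ), Ok b A c → ∀ s : ℝ, 0 ≤ s → s ≤ 1 / 2 →
  ∀ (t : ℕ) (F : Finset ℕ), (∀ p ∈ F, A ≤ p ∧ p ≤ t) → ∀ p1 ∈ F, (∀ p ∈ F, p1 ≤ p) →
  ∑ r ∈ (range (b ^ (t - p1))).filter (fun r => ∀ p ∈ F, ∀ q ∈ F, p < q → ¬ Deg c b t p q r),
    ∏ p ∈ F, ((1 + s) ^ (1 + run c b t p r) - 1) ≤ (4 * s) ^ F.card * (b : ℝ) ^ (t - p1)

open Classical in
/-- TASK E4: the exponential moment of a fixed set of minimal exponents. -/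
def S_E4 : Prop := ∀ (b A : ℕ) (c : ℕ → ℤ), Ok b A c → ∃ C : ℝ, 1 ≤ C ∧ ∃ P : ℕ, ∀ x ≥ P,
  ∀ T : Finset ℕ,
  (∀ p ∈ T, x < p ∧ p ≤ 2 * x) → ∀ z : ℕ, A * z ≤ x → ∀ t : ℕ, 2 * x ≤ t → ∀ j : ℕ, 1 ≤ j →
  ∀ s : ℝ, 0 ≤ s → s ≤ 1 / 2 → ∀ F : Finset ℕ, F ⊆ T → F.Nonempty → (F.card : ℝ) ^ 2 ≤ Real.log x →
  ∑ n ∈ (cell b z t j).filter (fun n => ¬ Big c T b t x n ∧ F ⊆ mhits c T b t n),
    ∏ p ∈ F, ((1 + s) ^ (1 + run c b t p n) - 1) ≤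
    (C * s * F.card * (Real.log x / x)) ^ F.card * (b : ℝ) ^ (t - z)

open Classical in
/-- TASK RB: large smooth parts are rare. -/
def S_RB : Prop := ∀ (b A : ℕ) (c : ℕ → ℤ), Ok b A c → ∃ d : ℝ, 0 < d ∧ ∃ P : ℕ, ∀ x ≥ P,
  ∀ T : Finset ℕ,
  (∀ p ∈ T, x < p ∧ p ≤ 2 * x) → ∀ z : ℕ, A * z ≤ x → ∀ t : ℕ, 2 * x ≤ t → ∀ j : ℕ, 1 ≤ j →
  j ≤ b ^ (2 * z) → (((cell b z t j).filter (fun n => Big c T b t x n)).card : ℝ) ≤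
    Real.exp (-(d * x)) * (b : ℝ) ^ (t - z)

/-- TASK MH: all exponents come from the minimal ones. -/
def S_MH : Prop := ∀ (c : ℕ → ℤ) (b t n : ℕ) (T : Finset ℕ), 2 ≤ b → (∀ p ∈ T, p ≤ t) →
  (hits c T b t n).card ≤ ∑ p ∈ mhits c T b t n, (1 + run c b t p n)

open Classical in
/-- TASK EX: the exponential moment of the number of exponents in a block, given the first digits. -/
def S_EX : Prop := ∀ (b A : ℕ) (c : ℕ → ℤ), Ok b A c → ∃ s1 C d : ℝ, 0 < s1 ∧ s1 ≤ 1 / 2 ∧ 0 < C ∧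
  0 < d ∧ ∃ P : ℕ,
  ∀ x ≥ P, ∀ T : Finset ℕ, (∀ p ∈ T, p.Prime ∧ x < p ∧ p ≤ 2 * x) → ∀ z : ℕ, A * z ≤ x →
  ∀ t : ℕ, 2 * x ≤ t → ∀ j : ℕ, 1 ≤ j → j ≤ b ^ (2 * z) →
  ∑ n ∈ (cell b z t j).filter (fun n => ((hits c T b t n).card : ℝ) ≤ √(Real.log x)),
    ((1 + s1) ^ (hits c T b t n).card - 1) ≤ C * VT T * (b : ℝ) ^ (t - z) ∧
  (((cell b z t j).filter (fun n => √(Real.log x) < ((hits c T b t n).card : ℝ))).card : ℝ) ≤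
    Real.exp (-(d * √(Real.log x))) * (b : ℝ) ^ (t - z)

/-- TASK SM: the second moment. -/
def S_SM : Prop := ∀ (b A : ℕ) (c : ℕ → ℤ), Ok b A c → ∃ D : ℝ, 0 < D ∧ ∃ P : ℕ,
  ∀ x ≥ P, ∀ T : Finset ℕ, (∀ p ∈ T, p.Prime ∧ x < p ∧ p ≤ 2 * x) → ∀ z : ℕ, A * z ≤ x →
  ∀ t : ℕ, 2 * x ≤ t → ∀ j : ℕ, 1 ≤ j → j ≤ b ^ (2 * z) →
  ∑ n ∈ cell b z t j, ((hits c T b t n).card : ℝ) ^ 2 ≤ D * VT T * (b : ℝ) ^ (t - z)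

/-- the number of integers in the cell with prime rough part after the shift -/
def cnt (c : ℕ → ℤ) (b z j p : ℕ) : ℕ :=
  ((Ico (j * b ^ (p - z)) ((j + 1) * b ^ (p - z))).filter
    (fun m => (roughPart p (sh c p m)).Prime)).card

/-- the mean over the cell of the number of exponents in `T` -/
noncomputable def mT (c : ℕ → ℤ) (b z : ℕ) (T : Finset ℕ) (j : ℕ) : ℝ :=
  ∑ p ∈ T, (cnt c b z j p : ℝ) / (b : ℝ) ^ (p - z)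

open Classical in
/-- TASK BL: Laplace transform of the number of exponents in a block, given the first digits. -/
def S_BL : Prop := ∀ (b A : ℕ) (c : ℕ → ℤ), Ok b A c → ∃ s1 C : ℝ, 0 < s1 ∧ s1 ≤ 1 / 2 ∧ 0 < C ∧
  ∃ P : ℕ,
  ∀ x ≥ P, ∀ T : Finset ℕ, (∀ p ∈ T, p.Prime ∧ x < p ∧ p ≤ 2 * x) → ∀ z : ℕ, A * z ≤ x →
  ∀ t : ℕ, 2 * x ≤ t → ∀ j : ℕ, 1 ≤ j → j ≤ b ^ (2 * z) → ∀ δ : ℝ, 0 ≤ δ →
  |mT c b z T j - kap b * VT T| ≤ δ → ∀ s : ℝ, |s| ≤ s1 →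
  ∑ n ∈ (cell b z t j).filter (fun n => ((hits c T b t n).card : ℝ) ≤ √(Real.log x)),
    (1 + s) ^ (hits c T b t n).card ≤
    Real.exp (s * (kap b * VT T) + |s| * δ + C * s ^ 2 * VT T) * (b : ℝ) ^ (t - z)

open Classical in
/-- TASK GC: most cells are good. -/
def S_GC : Prop := ∀ (b A : ℕ) (c : ℕ → ℤ), Ok b A c → ∃ k1 : ℕ, 7 ≤ k1 ∧ A ≤ 2 ^ (k1 - 1) ∧
  ∃ K : ℝ, 0 < K ∧ ∀ m0 : ℕ, ∃ P : ℕ,
  ∀ i ≥ P, ∀ T : Finset ℕ, (∀ p ∈ T, p.Prime ∧ 2 ^ i < p ∧ p ≤ 2 ^ (i + 1)) →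
  (((Ico (b ^ (2 ^ (i + 1 - k1) - m0)) (b ^ (2 ^ (i + 1 - k1) + m0))).filter
    (fun m => 1 / (i : ℝ) ^ 2 + K * VT T / i <
      |mT c b (2 ^ (i + 1 - k1)) T m - kap b * VT T|)).card : ℝ) ≤
    (b : ℝ) ^ (2 ^ (i + 1 - k1)) / (i : ℝ) ^ 2

/-- the shifts of the pair `(a, b)` -/
noncomputable def cc (a : ℕ) (b : ℤ) (p : ℕ) : ℤ :=
  if 0 < b then 1 - ⌈(b : ℝ) ^ p / ((a : ℝ) - b)⌉ else 1 + ⌊(|b| : ℝ) ^ p / ((a : ℝ) - b)⌋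

/-- TASK OKP: the shifts of the pairs satisfy the conditions. -/
def S_OKP : Prop := ∀ (a : ℕ) (b : ℤ), 1 ≤ |b| → |b| < a → ∃ A : ℕ, Ok a A (cc a b)

/-- the rough part of `⌈β a ^ p⌉ - ⌈b ^ p / (a - b)⌉` -/
noncomputable def WW (a : ℕ) (b : ℤ) (β : ℝ) (p : ℕ) : ℕ :=
  roughPart p (⌈β * (a : ℝ) ^ p⌉ - ⌈(b : ℝ) ^ p / ((a : ℝ) - b)⌉).toNat

/-- TASK SPE: the special values. -/
def S_SPE : Prop := ∀ (a : ℕ) (b : ℤ), 1 ≤ |b| → |b| < a → IsCoprime (a : ℤ) b → ∀ p : ℕ, p.Prime →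
  p ≠ 2 ∨ 0 < b → ¬ (p : ℤ) ∣ a - b →
  (WW a b (1 / ((a : ℝ) - b)) p : ℤ) * (a - b) = (a : ℤ) ^ p - b ^ p

end Pool.Agent.N176.SH
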