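import Mathlib
import Pool.Agent.N176.SH.Stm
import Pool.Agent.N176.GP.Pair

set_option autoImplicit false

/-!
# Project OW, task BL: Laplace transform of a block, given the first digits
-/

namespace Pool.Agent.N176.SH.BL

open Finset Filter Topology MeasureTheory
open Pool.Agent.H305R2 (roughPart)
open Pool.Agent.N176.OW (cell kap VT)
open Pool.Agent.N176.SH

/-- comparison of the remainders of the binomial expansion -/
lemma binom_cmp (θ s1 : ℝ) (hθ0 : 0 ≤ θ) (hθ1 : θ ≤ 1) (hs1 : 0 ≤ s1) (N : ℕ) :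
    0 ≤ (1 + s1) ^ N - 1 - N * s1 ∧
    (1 + θ * s1) ^ N - 1 - N * (θ * s1) ≤ θ ^ 2 * ((1 + s1) ^ N - 1 - N * s1) := by
  induction N with
  | zero => simp
  | succ N ih =>
    obtain ⟨ih0, ih1⟩ := ih
    have hN : (0 : ℝ) ≤ N := Nat.cast_nonneg N
    have e1 : (1 + s1) ^ (N + 1) - 1 - ((N + 1 : ℕ) : ℝ) * s1 =
        (1 + s1) * ((1 + s1) ^ N - 1 - N * s1) + N * s1 ^ 2 := by push_cast; ring
    have e2 : (1 + θ * s1) ^ (N + 1) - 1 - ((N + 1 : ℕ) : ℝ) * (θ * s1) =
        (1 + θ * s1) * ((1 + θ * s1) ^ N - 1 - N * (θ * s1)) + N * (θ * s1) ^ 2 := by push_cast; ring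
    rw [e1, e2]
    refine ⟨by positivity, ?_⟩
    have hθs : θ * s1 ≤ s1 := mul_le_of_le_one_left hs1 hθ1
    have h0 : 0 ≤ θ * s1 := by positivity
    calc (1 + θ * s1) * ((1 + θ * s1) ^ N - 1 - N * (θ * s1)) + N * (θ * s1) ^ 2
        ≤ (1 + θ * s1) * (θ ^ 2 * ((1 + s1) ^ N - 1 - N * s1)) + N * (θ * s1) ^ 2 := by
          gcongr
      _ ≤ (1 + s1) * (θ ^ 2 * ((1 + s1) ^ N - 1 - N * s1)) + N * (θ * s1) ^ 2 := by
          gcongr
      _ = θ ^ 2 * ((1 + s1) * ((1 + s1) ^ N - 1 - N * s1) + N * s1 ^ 2) := by ring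

lemma pow_up (s s1 : ℝ) (hs0 : 0 ≤ s) (hs : s ≤ s1) (hs1 : 0 < s1) (N : ℕ) :
    (1 + s) ^ N ≤ 1 + s * N + (s / s1) ^ 2 * ((1 + s1) ^ N - 1) := by
  obtain ⟨h0, h⟩ := binom_cmp (s / s1) s1 (by positivity) ((div_le_one hs1).2 hs) hs1.le N
  have e : s / s1 * s1 = s := div_mul_cancel₀ s hs1.ne'
  rw [e] at h
  have h2 : (s / s1) ^ 2 * ((1 + s1) ^ N - 1 - N * s1) ≤ (s / s1) ^ 2 * ((1 + s1) ^ N - 1) := by
    refine mul_le_mul_of_nonneg_left ?_ (by positivity)
    have : (0 : ℝ) ≤ N * s1 := by positivity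
    linarith
  linarith [mul_comm (N : ℝ) s]

lemma pow_down (σ : ℝ) (h0 : 0 ≤ σ) (h1 : σ ≤ 1) (N : ℕ) :
    (1 - σ) ^ N ≤ 1 - σ * N + σ ^ 2 * (N : ℝ) ^ 2 := by
  induction N with
  | zero => simp
  | succ N ih =>
    have hN : (0 : ℝ) ≤ N := Nat.cast_nonneg N
    calc (1 - σ) ^ (N + 1) = (1 - σ) * (1 - σ) ^ N := by ring
      _ ≤ (1 - σ) * (1 - σ * N + σ ^ 2 * (N : ℝ) ^ 2) :=
          mul_le_mul_of_nonneg_left ih (by linarith)
      _ ≤ 1 - σ * ((N + 1 : ℕ) : ℝ) + σ ^ 2 * (((N + 1 : ℕ) : ℝ)) ^ 2 := by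
          push_cast
          have : 0 ≤ σ ^ 3 * (N : ℝ) ^ 2 := by positivity
          have h3 : 0 ≤ σ ^ 2 * (N : ℝ) := by positivity
          nlinarith [sq_nonneg σ]

open Classical in
lemma mean_cell {c : ℕ → ℤ} {b : ℕ} (hb : 2 ≤ b) {T : Finset ℕ} {z j t : ℕ}
    (hT : ∀ p ∈ T, z ≤ p ∧ p ≤ t) :
    ∑ n ∈ cell b z t j, ((hits c T b t n).card : ℝ) = mT c b z T j * (b : ℝ) ^ (t - z) := by
  have hh : ∀ n, ((hits c T b t n).card : ℝ) =
      ∑ p ∈ T, if (roughPart p (sh c p (n / b ^ (t - p)))).Prime then (1 : ℝ) else 0 := by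
    intro n
    unfold hits
    rw [Finset.card_filter]
    push_cast
    refine Finset.sum_congr rfl fun p _ => ?_
    split_ifs <;> rfl
  simp only [hh]
  unfold mT
  rw [Finset.sum_comm, Finset.sum_mul]
  refine Finset.sum_congr rfl fun p hp => ?_
  obtain ⟨h1, h2⟩ := hT p hp
  have e : b ^ (t - z) = b ^ (p - z) * b ^ (t - p) := by rw [← pow_add]; congr 1; omega
  have h3 : ∑ n ∈ cell b z t j, (if (roughPart p (sh c p (n / b ^ (t - p)))).Prime then (1 : ℝ) else 0) =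
      ((b ^ (t - p) : ℕ) : ℝ) * ∑ m ∈ Ico (j * b ^ (p - z)) ((j + 1) * b ^ (p - z)),
        (if (roughPart p (sh c p m)).Prime then (1 : ℝ) else 0) := by
    unfold cell
    rw [e, ← mul_assoc, ← mul_assoc]
    exact Pool.Agent.N176.GP.sum_div _ _ _ (by positivity)
      (Nat.mul_le_mul_right _ (Nat.le_succ j))
      (fun m => if (roughPart p (sh c p m)).Prime then (1 : ℝ) else 0)
  have h4 : ∑ m ∈ Ico (j * b ^ (p - z)) ((j + 1) * b ^ (p - z)),
        (if (roughPart p (sh c p m)).Prime then (1 : ℝ) else 0) = (cnt c b z j p : ℝ) := by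
    unfold cnt
    rw [Finset.card_filter]
    push_cast
    refine Finset.sum_congr rfl fun m _ => ?_
    split_ifs <;> rfl
  rw [h3, h4]
  have h5 : (b : ℝ) ^ (t - z) = (b : ℝ) ^ (t - p) * (b : ℝ) ^ (p - z) := by
    rw [← pow_add]; congr 1; omega
  have hb0 : (b : ℝ) ^ (p - z) ≠ 0 := by positivity
  rw [h5]
  push_cast
  field_simp

lemma card_cell (b z t j : ℕ) : ((cell b z t j).card : ℝ) = (b : ℝ) ^ (t - z) := by
  unfold cell
  rw [Nat.card_Ico]
  have : (j + 1) * b ^ (t - z) - j * b ^ (t - z) = b ^ (t - z) := by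
    rw [add_mul, one_mul]; omega
  rw [this]; push_cast; rfl

theorem bl (h : S_EX) (hsm : S_SM) : S_BL := by
  classical
  intro b A τ hok
  have hb := hok.hb
  have hA := hok.hA
  obtain ⟨s1, C, c, hs1, hs12, hC, hc, P1, hEX⟩ := h b A τ hok
  obtain ⟨D, hD, P2, hSM⟩ := hsm b A τ hok
  refine ⟨s1, C / s1 ^ 2 + D, hs1, hs12, by positivity, max P1 P2,
    fun x hx T hT z hz t ht j hj1 hj2 δ hδ hm s hs => ?_⟩
  have hx1 : P1 ≤ x := (le_max_left _ _).trans hx
  have hx2 : P2 ≤ x := (le_max_right _ _).trans hx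
  obtain ⟨hE, -⟩ := hEX x hx1 T hT z hz t ht j hj1 hj2
  have hS := hSM x hx2 T hT z hz t ht j hj1 hj2
  have h64 : 64 * z ≤ x := (Nat.mul_le_mul_right z hA).trans hz
  have hmean : ∑ n ∈ cell b z t j, ((hits τ T b t n).card : ℝ) = mT τ b z T j * (b : ℝ) ^ (t - z) :=
    mean_cell hb fun p hp => by
      obtain ⟨h1, h2, h3⟩ := hT p hp
      constructor <;> omega
  have hVT : 0 ≤ VT T := by
    unfold VT
    refine Finset.sum_nonneg fun p _ => ?_
    have := Real.log_natCast_nonneg p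
    positivity
  have hb0 : (0 : ℝ) < b := by positivity
  set N := (b : ℝ) ^ (t - z) with hN
  have hN0 : 0 < N := by positivity
  set M := mT τ b z T j with hM
  set κ := kap b * VT T with hκ
  obtain ⟨hm1, hm2⟩ := abs_le.1 hm
  set F := (cell b z t j).filter (fun n => ((hits τ T b t n).card : ℝ) ≤ √(Real.log x)) with hFdef
  have hFs : F ⊆ cell b z t j := filter_subset _ _
  rcases le_total 0 s with hs0 | hs0
  · have hss : s ≤ s1 := (le_abs_self s).trans hs
    have h1 : ∑ n ∈ F, (1 + s) ^ (hits τ T b t n).card ≤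
        ∑ n ∈ F, (1 + s * ((hits τ T b t n).card : ℝ)) +
          (s / s1) ^ 2 * ∑ n ∈ F, ((1 + s1) ^ (hits τ T b t n).card - 1) := by
      rw [Finset.mul_sum, ← Finset.sum_add_distrib]
      exact Finset.sum_le_sum fun n _ => pow_up s s1 hs0 hss hs1 _
    have h2 : ∑ n ∈ F, (1 + s * ((hits τ T b t n).card : ℝ)) ≤ N * (1 + s * M) := by
      calc _ ≤ ∑ n ∈ cell b z t j, (1 + s * ((hits τ T b t n).card : ℝ)) :=
            Finset.sum_le_sum_of_subset_of_nonneg hFs fun _ _ _ => by positivity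
        _ = N * (1 + s * M) := by
            rw [Finset.sum_add_distrib, ← Finset.mul_sum, hmean, Finset.sum_const, nsmul_eq_mul,
              card_cell]
            ring
    have h3 : (s / s1) ^ 2 * ∑ n ∈ F, ((1 + s1) ^ (hits τ T b t n).card - 1) ≤
        (s / s1) ^ 2 * (C * VT T * N) := mul_le_mul_of_nonneg_left hE (by positivity)
    have h4 : s * M + (s / s1) ^ 2 * (C * VT T) ≤
        s * κ + |s| * δ + (C / s1 ^ 2 + D) * s ^ 2 * VT T := by
      rw [abs_of_nonneg hs0]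
      have e : (s / s1) ^ 2 * (C * VT T) = C / s1 ^ 2 * s ^ 2 * VT T := by
        rw [div_pow]; ring
      have e2 : s * M ≤ s * κ + s * δ := by
        have : M ≤ κ + δ := by linarith
        calc s * M ≤ s * (κ + δ) := mul_le_mul_of_nonneg_left this hs0
          _ = _ := by ring
      have e3 : 0 ≤ D * s ^ 2 * VT T := by positivity
      rw [e]
      linarith [add_mul (C / s1 ^ 2) D (s ^ 2), add_mul (C / s1 ^ 2 * s ^ 2) (D * s ^ 2) (VT T)]
    calc ∑ n ∈ F, (1 + s) ^ (hits τ T b t n).card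
        ≤ N * (1 + s * M) + (s / s1) ^ 2 * (C * VT T * N) := by linarith
      _ = (1 + (s * M + (s / s1) ^ 2 * (C * VT T))) * N := by ring
      _ ≤ Real.exp (s * M + (s / s1) ^ 2 * (C * VT T)) * N := by
          refine mul_le_mul_of_nonneg_right ?_ hN0.le
          rw [add_comm]; exact Real.add_one_le_exp _
      _ ≤ _ := by
          refine mul_le_mul_of_nonneg_right (Real.exp_le_exp.2 h4) hN0.le
  · set σ := -s with hσ
    have hσ0 : 0 ≤ σ := by rw [hσ]; linarith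
    have hσs : |s| = σ := abs_of_nonpos hs0
    have hσ1 : σ ≤ 1 := by
      have : |s| ≤ s1 := hs
      rw [hσs] at this
      linarith
    have e0 : (1 : ℝ) + s = 1 - σ := by rw [hσ]; ring
    have e1 : s = -σ := by rw [hσ]; ring
    have h1 : ∑ n ∈ F, (1 + s) ^ (hits τ T b t n).card ≤
        ∑ n ∈ cell b z t j, (1 - σ * ((hits τ T b t n).card : ℝ) +
          σ ^ 2 * ((hits τ T b t n).card : ℝ) ^ 2) := by
      calc ∑ n ∈ F, (1 + s) ^ (hits τ T b t n).card
          ≤ ∑ n ∈ cell b z t j, (1 + s) ^ (hits τ T b t n).card := by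
            refine Finset.sum_le_sum_of_subset_of_nonneg hFs fun _ _ _ => ?_
            rw [e0]
            exact pow_nonneg (by linarith) _
        _ ≤ _ := by
            refine Finset.sum_le_sum fun n _ => ?_
            rw [e0]
            exact pow_down σ hσ0 hσ1 _
    have h2 : ∑ n ∈ cell b z t j, (1 - σ * ((hits τ T b t n).card : ℝ) +
          σ ^ 2 * ((hits τ T b t n).card : ℝ) ^ 2) =
        N * (1 - σ * M) + σ ^ 2 * ∑ n ∈ cell b z t j, ((hits τ T b t n).card : ℝ) ^ 2 := by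
      rw [Finset.sum_add_distrib, Finset.sum_sub_distrib, ← Finset.mul_sum, ← Finset.mul_sum, hmean,
        Finset.sum_const, nsmul_eq_mul, card_cell]
      ring
    have h3 : σ ^ 2 * ∑ n ∈ cell b z t j, ((hits τ T b t n).card : ℝ) ^ 2 ≤ σ ^ 2 * (D * VT T * N) :=
      mul_le_mul_of_nonneg_left hS (by positivity)
    have h4 : -(σ * M) + σ ^ 2 * (D * VT T) ≤
        s * κ + |s| * δ + (C / s1 ^ 2 + D) * s ^ 2 * VT T := by
      rw [hσs]
      have e2 : -(σ * M) ≤ s * κ + σ * δ := by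
        have : κ - δ ≤ M := by linarith
        have h5 : σ * (κ - δ) ≤ σ * M := mul_le_mul_of_nonneg_left this hσ0
        rw [e1]
        linarith [mul_sub σ κ δ, neg_mul σ κ]
      have e3 : 0 ≤ C / s1 ^ 2 * s ^ 2 * VT T := by positivity
      have e4 : σ ^ 2 * (D * VT T) = D * s ^ 2 * VT T := by rw [hσ]; ring
      rw [e4]
      linarith [add_mul (C / s1 ^ 2) D (s ^ 2), add_mul (C / s1 ^ 2 * s ^ 2) (D * s ^ 2) (VT T)]
    calc ∑ n ∈ F, (1 + s) ^ (hits τ T b t n).card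
        ≤ N * (1 - σ * M) + σ ^ 2 * (D * VT T * N) := by linarith
      _ = (1 + (-(σ * M) + σ ^ 2 * (D * VT T))) * N := by ring
      _ ≤ Real.exp (-(σ * M) + σ ^ 2 * (D * VT T)) * N := by
          refine mul_le_mul_of_nonneg_right ?_ hN0.le
          rw [add_comm]; exact Real.add_one_le_exp _
      _ ≤ _ := by
          refine mul_le_mul_of_nonneg_right (Real.exp_le_exp.2 h4) hN0.le

end Pool.Agent.N176.SH.BL
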