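import Mathlib
import Pool.Agent.N176.OW.M4
import Pool.Agent.N176.SH.Stm

set_option autoImplicit false

/-!
# Shifted digits: dyadic blocks of exponents, the exponential inequality, good amplitudes
(after `N176/OW/M2.lean` and `N176/OW/M4.lean`)
-/

namespace Pool.Agent.N176.SH

open Finset Filter Topology MeasureTheory
open Pool.Agent.N176.GP (sum_cells NB NB_spec NB_div div_level card_primes log_div_le)
open Pool.Agent.N176.OW (cell kap VT TS VS dl dl_nonneg VP DP TS_prop VT_nonneg vol_le Exc itm div_of_mem_cell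
  exp_neg_le)
open Pool.Agent.H305R2 (roughPart)

open Classical in
/-- the number of primes `p ≤ n` in `S` for which the shifted integer has prime rough part -/
noncomputable def MB (σ : ℕ → ℤ) (b : ℕ) (S : Set ℕ) (β : ℝ) (n : ℕ) : ℕ :=
  ((range (n + 1)).filter (fun p => p.Prime ∧ p ∈ S ∧ (roughPart p (sh σ p (NB b β p))).Prime)).card

/-- the number of exponents in the block -/
noncomputable def NBl (σ : ℕ → ℤ) (b : ℕ) (S : Set ℕ) (β : ℝ) (i : ℕ) : ℕ :=
  (hits σ (TS S i) b (2 ^ (i + 1)) (NB b β (2 ^ (i + 1)))).card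

lemma MB_step {σ : ℕ → ℤ} {b : ℕ} (hb : 2 ≤ b) (S : Set ℕ) {β : ℝ} (hβ : 0 < β) (i : ℕ) :
    MB σ b S β (2 ^ (i + 1)) = MB σ b S β (2 ^ i) + NBl σ b S β i := by
  classical
  unfold MB NBl hits TS
  have hle : 2 ^ i ≤ 2 ^ (i + 1) := Nat.pow_le_pow_right (by norm_num) (by omega)
  rw [← Finset.card_union_of_disjoint]
  · congr 1
    ext p
    simp only [mem_union, mem_filter, mem_range, mem_Ioc]
    constructor
    · rintro ⟨h1, h2, h3, h4⟩
      rcases Nat.lt_or_ge p (2 ^ i + 1) with h5 | h5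
      · exact Or.inl ⟨h5, h2, h3, h4⟩
      · refine Or.inr ⟨⟨⟨by omega, by omega⟩, h2, h3⟩, ?_⟩
        rw [NB_div hb hβ (by omega)]
        exact h4
    · rintro (⟨h1, h2, h3, h4⟩ | ⟨⟨⟨h1, h1'⟩, h2, h3⟩, h4⟩)
      · exact ⟨by omega, h2, h3, h4⟩
      · rw [NB_div hb hβ (by omega)] at h4
        exact ⟨by omega, h2, h3, h4⟩
  · rw [Finset.disjoint_left]
    intro p h1 h2
    simp only [mem_filter, mem_range, mem_Ioc] at h1 h2
    omega

/-- the amplitude is good at the block `i` -/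
def Gd (σ : ℕ → ℤ) (b k1 : ℕ) (K : ℝ) (S : Set ℕ) (β : ℝ) (i : ℕ) : Prop :=
  |mT σ b (2 ^ (i + 1 - k1)) (TS S i) (NB b β (2 ^ (i + 1 - k1))) - kap b * VT (TS S i)| ≤ dl K S i ∧
    (NBl σ b S β i : ℝ) ≤ √(Real.log ((2 ^ i : ℕ) : ℝ))

noncomputable def NP (σ : ℕ → ℤ) (b : ℕ) (S : Set ℕ) (β : ℝ) (k1 a i : ℕ) : ℕ := ∑ l ∈ range i, NBl σ b S β (a + l * k1)

open Classical in
theorem core {σ : ℕ → ℤ} {A b : ℕ} (hb : 2 ≤ b) {s1 C : ℝ} {P k1 : ℕ} {K : ℝ} (hk1 : 7 ≤ k1)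
    (hA0 : A ≤ 2 ^ (k1 - 1)) (hK : 0 < K)
    (hs1 : s1 ≤ 1 / 2)
    (hBL : ∀ x ≥ P, ∀ T : Finset ℕ, (∀ p ∈ T, p.Prime ∧ x < p ∧ p ≤ 2 * x) → ∀ z : ℕ, A * z ≤ x →
      ∀ t : ℕ, 2 * x ≤ t → ∀ j : ℕ, 1 ≤ j → j ≤ b ^ (2 * z) → ∀ δ : ℝ, 0 ≤ δ →
      |mT σ b z T j - kap b * VT T| ≤ δ → ∀ s : ℝ, |s| ≤ s1 →
      ∑ n ∈ (cell b z t j).filter (fun n => ((hits σ T b t n).card : ℝ) ≤ √(Real.log x)),
        (1 + s) ^ (hits σ T b t n).card ≤
        Real.exp (s * (kap b * VT T) + |s| * δ + C * s ^ 2 * VT T) * (b : ℝ) ^ (t - z))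
    (S : Set ℕ) {m0 a : ℕ} (ha1 : P ≤ 2 ^ a) (ha2 : k1 ≤ a) (ha3 : m0 ≤ 2 ^ (a + 1 - k1))
    {s : ℝ} (hs : |s| ≤ s1) {lam : ℝ} (hlam : 0 < lam) :
    volume {β : ℝ | ((b : ℝ) ^ m0)⁻¹ < β ∧ β ≤ (b : ℝ) ^ m0 ∧ ∃ i : ℕ,
      (∀ l < i, Gd σ b k1 K S β (a + l * k1)) ∧
      lam * Real.exp (s * (kap b * VP S k1 a i) + |s| * DP K S k1 a i + C * s ^ 2 * VP S k1 a i) ≤
        (1 + s) ^ (NP σ b S β k1 a i)} ≤ ENNReal.ofReal ((b : ℝ) ^ m0 / lam) := by
  have hb0 : (0 : ℝ) < b := by positivity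
  set τ : ℕ → ℕ := fun l => 2 ^ (a + 1 - k1 + l * k1) with hτ
  have hτmono : Monotone τ := by
    intro x y hxy
    exact Nat.pow_le_pow_right (by norm_num) (by nlinarith)
  have hτS : ∀ l, τ (l + 1) = 2 ^ (a + l * k1 + 1) := by
    intro l
    simp only [hτ]
    congr 1
    rw [Nat.succ_mul]
    omega
  have hτl : ∀ l, τ l = 2 ^ (a + l * k1 + 1 - k1) := by
    intro l
    simp only [hτ]
    congr 1
    omega
  have hs' : -(1 / 2) ≤ s := by
    have := neg_abs_le s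
    linarith
  set w : ℕ → ℕ → ℝ := fun l n => if |mT σ b (τ l) (TS S (a + l * k1)) (n / b ^ (τ (l + 1) - τ l)) -
      kap b * VT (TS S (a + l * k1))| ≤ dl K S (a + l * k1) ∧
      ((hits σ (TS S (a + l * k1)) b (τ (l + 1)) n).card : ℝ) ≤ √(Real.log ((2 ^ (a + l * k1) : ℕ) : ℝ))
      then (1 + s) ^ (hits σ (TS S (a + l * k1)) b (τ (l + 1)) n).card else 0 with hw
  set E : ℕ → ℝ := fun l => Real.exp (s * (kap b * VT (TS S (a + l * k1))) + |s| * dl K S (a + l * k1) +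
      C * s ^ 2 * VT (TS S (a + l * k1))) with hE
  have hw0 : ∀ l n, 0 ≤ w l n := by
    intro l n
    simp only [hw]
    split_ifs
    · have : 0 ≤ 1 + s := by linarith
      positivity
    · exact le_rfl
  have hE0 : ∀ l, 0 < E l := fun l => Real.exp_pos _
  have hstep : ∀ l m, 1 ≤ m → m ≤ b ^ (2 * τ l) →
      ∑ n ∈ cell b (τ l) (τ (l + 1)) m, w l n ≤ E l * (b : ℝ) ^ (τ (l + 1) - τ l) := by
    intro l m hm1 hm2
    by_cases hg : |mT σ b (τ l) (TS S (a + l * k1)) m - kap b * VT (TS S (a + l * k1))| ≤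
        dl K S (a + l * k1)
    · have h1 : ∑ n ∈ cell b (τ l) (τ (l + 1)) m, w l n =
          ∑ n ∈ (cell b (τ l) (τ (l + 1)) m).filter (fun n =>
            ((hits σ (TS S (a + l * k1)) b (τ (l + 1)) n).card : ℝ) ≤
              √(Real.log ((2 ^ (a + l * k1) : ℕ) : ℝ))),
            (1 + s) ^ (hits σ (TS S (a + l * k1)) b (τ (l + 1)) n).card := by
        rw [Finset.sum_filter]
        refine Finset.sum_congr rfl fun n hn => ?_
        simp only [hw]
        rw [div_of_mem_cell hb hn]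
        by_cases h2 : ((hits σ (TS S (a + l * k1)) b (τ (l + 1)) n).card : ℝ) ≤
              √(Real.log ((2 ^ (a + l * k1) : ℕ) : ℝ))
        · rw [if_pos ⟨hg, h2⟩, if_pos h2]
        · rw [if_neg (fun h => h2 h.2), if_neg h2]
      rw [h1]
      refine hBL (2 ^ (a + l * k1)) ?_ (TS S (a + l * k1)) (TS_prop S _) (τ l) ?_ (τ (l + 1)) ?_ m hm1 hm2
        (dl K S (a + l * k1)) (dl_nonneg hK.le S _) hg s hs
      · exact ha1.trans (Nat.pow_le_pow_right (by norm_num) (by omega))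
      · rw [hτl]
        calc A * 2 ^ (a + l * k1 + 1 - k1) ≤ 2 ^ (k1 - 1) * 2 ^ (a + l * k1 + 1 - k1) :=
              Nat.mul_le_mul_right _ hA0
          _ = 2 ^ (a + l * k1) := by rw [← pow_add]; congr 1; omega
      · rw [hτS, pow_succ]
        omega
    · have h1 : ∑ n ∈ cell b (τ l) (τ (l + 1)) m, w l n = 0 := by
        refine Finset.sum_eq_zero fun n hn => ?_
        simp only [hw]
        rw [div_of_mem_cell hb hn, if_neg (fun h => hg h.1)]
      rw [h1]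
      have := hE0 l
      positivity
  have hm0 : m0 ≤ τ 0 := by
    simp only [hτ]
    simpa using ha3
  -- finite horizon
  have hfin : ∀ k : ℕ, volume {β : ℝ | ((b : ℝ) ^ m0)⁻¹ < β ∧ β ≤ (b : ℝ) ^ m0 ∧
      Exc b τ w E k lam (NB b β (τ k))} ≤ ENNReal.ofReal ((b : ℝ) ^ m0 / lam) := by
    intro k
    have h0k : τ 0 ≤ τ k := hτmono (Nat.zero_le k)
    refine vol_le hb (hm0.trans h0k) _ _ ?_
    have e : ((((Ico (b ^ (τ k - m0)) (b ^ (τ k + m0))).filter (Exc b τ w E k lam)).card : ℕ) : ℝ) =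
        ∑ j ∈ Ico (b ^ (τ 0 - m0)) (b ^ (τ 0 + m0)),
          (((cell b (τ 0) (τ k) j).filter (Exc b τ w E k lam)).card : ℝ) := by
      have e0 : ∀ (F : Finset ℕ), ((F.filter (Exc b τ w E k lam)).card : ℝ) =
          ∑ n ∈ F, if Exc b τ w E k lam n then (1 : ℝ) else 0 := by
        intro F
        rw [← Finset.sum_filter, Finset.sum_const, nsmul_eq_mul, mul_one]
      rw [e0, Finset.sum_congr rfl fun m _ => e0 _]
      have e1 : b ^ (τ k - m0) = b ^ (τ 0 - m0) * b ^ (τ k - τ 0) := by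
        rw [← pow_add]; congr 1; omega
      have e2 : b ^ (τ k + m0) = b ^ (τ 0 + m0) * b ^ (τ k - τ 0) := by
        rw [← pow_add]; congr 1; omega
      rw [e1, e2, sum_cells _ _ _ (Nat.pow_le_pow_right (by omega) (by omega))]
      refine Finset.sum_congr rfl fun j _ => ?_
      unfold cell
      rw [sum_cells _ _ _ (Nat.le_succ j), Nat.Ico_succ_singleton, Finset.sum_singleton]
    rw [e]
    calc ∑ j ∈ Ico (b ^ (τ 0 - m0)) (b ^ (τ 0 + m0)),
          (((cell b (τ 0) (τ k) j).filter (Exc b τ w E k lam)).card : ℝ) ≤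
          ∑ j ∈ Ico (b ^ (τ 0 - m0)) (b ^ (τ 0 + m0)), (b : ℝ) ^ (τ k - τ 0) / lam := by
          refine Finset.sum_le_sum fun j hj => ?_
          rw [mem_Ico] at hj
          have hj1 : 1 ≤ j := by
            have : 1 ≤ b ^ (τ 0 - m0) := Nat.one_le_pow _ _ (by omega)
            omega
          have hj2 : j < b ^ (2 * τ 0) := by
            have : b ^ (τ 0 + m0) ≤ b ^ (2 * τ 0) := Nat.pow_le_pow_right (by omega) (by omega)
            omega
          exact itm hb k τ w E hτmono hw0 hE0 hstep j hj1 hj2 lam hlam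
      _ ≤ (b : ℝ) ^ (τ 0 + m0) * ((b : ℝ) ^ (τ k - τ 0) / lam) := by
          rw [Finset.sum_const, Nat.card_Ico, nsmul_eq_mul]
          refine mul_le_mul_of_nonneg_right ?_ (by positivity)
          have : ((b ^ (τ 0 + m0) - b ^ (τ 0 - m0) : ℕ) : ℝ) ≤ ((b ^ (τ 0 + m0) : ℕ) : ℝ) := by
            exact_mod_cast Nat.sub_le _ _
          refine this.trans (le_of_eq ?_)
          push_cast
          rfl
      _ = _ := by
          have : (b : ℝ) ^ (τ 0 + m0) * (b : ℝ) ^ (τ k - τ 0) = (b : ℝ) ^ m0 * (b : ℝ) ^ τ k := by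
            rw [← pow_add, ← pow_add]; congr 1; omega
          rw [← mul_div_assoc, this]
          ring
  -- the event
  set Q : ℕ → Set ℝ := fun k => {β : ℝ | ((b : ℝ) ^ m0)⁻¹ < β ∧ β ≤ (b : ℝ) ^ m0 ∧ ∃ i ≤ k,
      (∀ l < i, Gd σ b k1 K S β (a + l * k1)) ∧
      lam * Real.exp (s * (kap b * VP S k1 a i) + |s| * DP K S k1 a i + C * s ^ 2 * VP S k1 a i) ≤
        (1 + s) ^ (NP σ b S β k1 a i)} with hQ
  have hQle : ∀ k, volume (Q k) ≤ ENNReal.ofReal ((b : ℝ) ^ m0 / lam) := by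
    intro k
    refine (measure_mono ?_).trans (hfin k)
    rintro β ⟨h1, h2, i, hi, h3, h4⟩
    refine ⟨h1, h2, i, hi, ?_⟩
    have hβ : 0 < β := lt_trans (by positivity) h1
    have hwl : ∀ l ∈ range i, w l (NB b β (τ k) / b ^ (τ k - τ (l + 1))) =
        (1 + s) ^ (NBl σ b S β (a + l * k1)) := by
      intro l hl
      rw [mem_range] at hl
      rw [NB_div hb hβ (hτmono (by omega))]
      obtain ⟨g1, g2⟩ := h3 l hl
      simp only [hw]
      rw [NB_div hb hβ (hτmono (by omega))]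
      have hN : (hits σ (TS S (a + l * k1)) b (τ (l + 1)) (NB b β (τ (l + 1)))).card =
          NBl σ b S β (a + l * k1) := by
        unfold NBl
        rw [hτS]
      rw [hN, if_pos ⟨by rw [hτl]; exact g1, g2⟩]
    rw [Finset.prod_congr rfl hwl, Finset.prod_pow_eq_pow_sum]
    have hEp : ∏ l ∈ range i, E l = Real.exp (s * (kap b * VP S k1 a i) + |s| * DP K S k1 a i +
        C * s ^ 2 * VP S k1 a i) := by
      simp only [hE]
      rw [← Real.exp_sum]
      congr 1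
      rw [Finset.sum_add_distrib, Finset.sum_add_distrib]
      unfold VP DP
      simp only [Finset.mul_sum]
    rw [hEp]
    exact h4
  have hQmono : Monotone Q := by
    intro x y hxy β hβ
    obtain ⟨h1, h2, i, hi, h3⟩ := hβ
    exact ⟨h1, h2, i, hi.trans hxy, h3⟩
  have hunion : {β : ℝ | ((b : ℝ) ^ m0)⁻¹ < β ∧ β ≤ (b : ℝ) ^ m0 ∧ ∃ i : ℕ,
      (∀ l < i, Gd σ b k1 K S β (a + l * k1)) ∧
      lam * Real.exp (s * (kap b * VP S k1 a i) + |s| * DP K S k1 a i + C * s ^ 2 * VP S k1 a i) ≤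
        (1 + s) ^ (NP σ b S β k1 a i)} ⊆ ⋃ k, Q k := by
    rintro β ⟨h1, h2, i, h3⟩
    rw [Set.mem_iUnion]
    exact ⟨i, h1, h2, i, le_rfl, h3⟩
  refine (measure_mono hunion).trans ?_
  rw [hQmono.measure_iUnion]
  exact iSup_le hQle

open Classical in
theorem good_ae {σ : ℕ → ℤ} {A b : ℕ} (hb : 2 ≤ b) {c : ℝ} {P k1 : ℕ} {K : ℝ} (hk1 : 7 ≤ k1)
    (hA0 : A ≤ 2 ^ (k1 - 1)) (hc : 0 < c)
    (hEX : ∀ x ≥ P, ∀ T : Finset ℕ, (∀ p ∈ T, p.Prime ∧ x < p ∧ p ≤ 2 * x) → ∀ z : ℕ, A * z ≤ x →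
      ∀ t : ℕ, 2 * x ≤ t → ∀ j : ℕ, 1 ≤ j → j ≤ b ^ (2 * z) →
      (((cell b z t j).filter (fun n => √(Real.log x) < ((hits σ T b t n).card : ℝ))).card : ℝ) ≤
        Real.exp (-(c * √(Real.log x))) * (b : ℝ) ^ (t - z))
    (hGC : ∀ m0 : ℕ, ∃ P : ℕ,
      ∀ i ≥ P, ∀ T : Finset ℕ, (∀ p ∈ T, p.Prime ∧ 2 ^ i < p ∧ p ≤ 2 ^ (i + 1)) →
      (((Ico (b ^ (2 ^ (i + 1 - k1) - m0)) (b ^ (2 ^ (i + 1 - k1) + m0))).filter
        (fun m => 1 / (i : ℝ) ^ 2 + K * VT T / i < |mT σ b (2 ^ (i + 1 - k1)) T m - kap b * VT T|)).card : ℝ) ≤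
        (b : ℝ) ^ (2 ^ (i + 1 - k1)) / (i : ℝ) ^ 2)
    (S : Set ℕ) : ∀ᵐ β : ℝ, 0 < β → ∀ᶠ i : ℕ in atTop, Gd σ b k1 K S β i := by
  have hb0 : (0 : ℝ) < b := by positivity
  have hl2 : 0 < Real.log 2 := Real.log_pos (by norm_num)
  have hae : ∀ m0 : ℕ, ∀ᵐ β : ℝ, ((b : ℝ) ^ m0)⁻¹ < β → β ≤ (b : ℝ) ^ m0 →
      ∀ᶠ i : ℕ in atTop, Gd σ b k1 K S β i := by
    intro m0
    obtain ⟨P2, hP2⟩ := hGC m0
    have hpow : Tendsto (fun i : ℕ => 2 ^ (i + 1 - k1)) atTop atTop := by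
      refine (tendsto_pow_atTop_atTop_of_one_lt (by norm_num)).comp ?_
      exact tendsto_atTop_mono (fun i => show i - k1 ≤ i + 1 - k1 by omega) (tendsto_sub_atTop_nat k1)
    have hpow2 : Tendsto (fun i : ℕ => 2 ^ i) atTop atTop := tendsto_pow_atTop_atTop_of_one_lt (by norm_num)
    obtain ⟨i0, hi0⟩ := ((hpow.eventually_ge_atTop m0).and ((hpow2.eventually_ge_atTop P).and
      ((eventually_ge_atTop P2).and ((eventually_ge_atTop k1).and
      (eventually_ge_atTop 1))))).exists_forall_of_atTop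
    set p : ℕ → ℝ → Prop := fun i β => i0 ≤ i ∧ ((b : ℝ) ^ m0)⁻¹ < β ∧
      β ≤ (b : ℝ) ^ m0 ∧ ¬ Gd σ b k1 K S β i with hp
    set C' : ℝ := 1 + (b : ℝ) ^ m0 * (24 / (c ^ 4 * Real.log 2 ^ 2)) with hC'
    have hmeas : ∀ i : ℕ, volume {β : ℝ | p i β} ≤ ENNReal.ofReal (C' * (1 / (i : ℝ) ^ 2)) := by
      intro i
      by_cases hi : i0 ≤ i
      · obtain ⟨h1, h2, h3, h4, h5⟩ := hi0 i hi
        have hir : (1 : ℝ) ≤ i := by exact_mod_cast h5
        set z := 2 ^ (i + 1 - k1) with hz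
        set T := TS S i with hT
        have hTp : ∀ p ∈ T, p.Prime ∧ 2 ^ i < p ∧ p ≤ 2 ^ (i + 1) := by
          intro p hp
          obtain ⟨g1, g2, g3⟩ := TS_prop S i p hp
          exact ⟨g1, g2, by rw [pow_succ]; omega⟩
        -- the two parts
        have hA : volume {β : ℝ | ((b : ℝ) ^ m0)⁻¹ < β ∧ β ≤ (b : ℝ) ^ m0 ∧
            (1 / (i : ℝ) ^ 2 + K * VT T / i < |mT σ b z T (NB b β z) - kap b * VT T|)} ≤
            ENNReal.ofReal (1 / (i : ℝ) ^ 2) := by
          refine vol_le hb h1 (fun m => 1 / (i : ℝ) ^ 2 + K * VT T / i < |mT σ b z T m - kap b * VT T|) _ ?_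
          refine (hP2 i h3 T hTp).trans (le_of_eq ?_)
          ring
        have hzt : z ≤ 2 ^ (i + 1) := Nat.pow_le_pow_right (by norm_num) (by omega)
        have hx0 : (0 : ℝ) < Real.log ((2 ^ i : ℕ) : ℝ) := by
          refine Real.log_pos ?_
          have : 2 ≤ 2 ^ i := by
            calc 2 = 2 ^ 1 := rfl
              _ ≤ 2 ^ i := Nat.pow_le_pow_right (by norm_num) h5
          have : (2 : ℝ) ≤ ((2 ^ i : ℕ) : ℝ) := by exact_mod_cast this
          linarith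
        have hB : volume {β : ℝ | ((b : ℝ) ^ m0)⁻¹ < β ∧ β ≤ (b : ℝ) ^ m0 ∧
            (√(Real.log ((2 ^ i : ℕ) : ℝ)) < ((hits σ T b (2 ^ (i + 1)) (NB b β (2 ^ (i + 1)))).card : ℝ))} ≤
            ENNReal.ofReal ((b : ℝ) ^ m0 * Real.exp (-(c * √(Real.log ((2 ^ i : ℕ) : ℝ))))) := by
          refine vol_le hb (h1.trans hzt) (fun n => √(Real.log ((2 ^ i : ℕ) : ℝ)) <
            ((hits σ T b (2 ^ (i + 1)) n).card : ℝ)) _ ?_
          set Pr : ℕ → Prop := fun n => √(Real.log ((2 ^ i : ℕ) : ℝ)) <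
            ((hits σ T b (2 ^ (i + 1)) n).card : ℝ) with hPr
          set t := 2 ^ (i + 1) with ht
          have e : ((((Ico (b ^ (t - m0)) (b ^ (t + m0))).filter Pr).card : ℕ) : ℝ) =
              ∑ j ∈ Ico (b ^ (z - m0)) (b ^ (z + m0)), (((cell b z t j).filter Pr).card : ℝ) := by
            have e0 : ∀ (F : Finset ℕ), ((F.filter Pr).card : ℝ) =
                ∑ n ∈ F, if Pr n then (1 : ℝ) else 0 := by
              intro F
              rw [← Finset.sum_filter, Finset.sum_const, nsmul_eq_mul, mul_one]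
            rw [e0, Finset.sum_congr rfl fun m _ => e0 _]
            have e1 : b ^ (t - m0) = b ^ (z - m0) * b ^ (t - z) := by
              rw [← pow_add]; congr 1; omega
            have e2 : b ^ (t + m0) = b ^ (z + m0) * b ^ (t - z) := by
              rw [← pow_add]; congr 1; omega
            rw [e1, e2, sum_cells _ _ _ (Nat.pow_le_pow_right (by omega) (by omega))]
            refine Finset.sum_congr rfl fun j _ => ?_
            unfold cell
            rw [sum_cells _ _ _ (Nat.le_succ j), Nat.Ico_succ_singleton, Finset.sum_singleton]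
          rw [e]
          calc ∑ j ∈ Ico (b ^ (z - m0)) (b ^ (z + m0)), (((cell b z t j).filter Pr).card : ℝ) ≤
              ∑ j ∈ Ico (b ^ (z - m0)) (b ^ (z + m0)),
                Real.exp (-(c * √(Real.log ((2 ^ i : ℕ) : ℝ)))) * (b : ℝ) ^ (t - z) := by
                refine Finset.sum_le_sum fun j hj => ?_
                rw [mem_Ico] at hj
                have hj1 : 1 ≤ j := by
                  have : 1 ≤ b ^ (z - m0) := Nat.one_le_pow _ _ (by omega)
                  omega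
                have hj2 : j ≤ b ^ (2 * z) := by
                  have : b ^ (z + m0) ≤ b ^ (2 * z) := Nat.pow_le_pow_right (by omega) (by omega)
                  omega
                refine hEX (2 ^ i) h2 T (TS_prop S i) z ?_ t ?_ j hj1 hj2
                · calc A * 2 ^ (i + 1 - k1) ≤ 2 ^ (k1 - 1) * 2 ^ (i + 1 - k1) :=
                        Nat.mul_le_mul_right _ hA0
                    _ = 2 ^ i := by rw [← pow_add]; congr 1; omega
                · rw [ht, pow_succ]; omega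
            _ ≤ (b : ℝ) ^ (z + m0) * (Real.exp (-(c * √(Real.log ((2 ^ i : ℕ) : ℝ)))) * (b : ℝ) ^ (t - z)) := by
                rw [Finset.sum_const, Nat.card_Ico, nsmul_eq_mul]
                refine mul_le_mul_of_nonneg_right ?_ (by positivity)
                have : ((b ^ (z + m0) - b ^ (z - m0) : ℕ) : ℝ) ≤ ((b ^ (z + m0) : ℕ) : ℝ) := by
                  exact_mod_cast Nat.sub_le _ _
                refine this.trans (le_of_eq ?_)
                push_cast
                rfl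
            _ = _ := by
                have : (b : ℝ) ^ (z + m0) * (b : ℝ) ^ (t - z) = (b : ℝ) ^ m0 * (b : ℝ) ^ t := by
                  rw [← pow_add, ← pow_add]; congr 1; omega
                calc _ = ((b : ℝ) ^ (z + m0) * (b : ℝ) ^ (t - z)) *
                      Real.exp (-(c * √(Real.log ((2 ^ i : ℕ) : ℝ)))) := by ring
                  _ = _ := by rw [this]; ring
        have hexp : Real.exp (-(c * √(Real.log ((2 ^ i : ℕ) : ℝ)))) ≤
            24 / (c ^ 4 * Real.log 2 ^ 2) * (1 / (i : ℝ) ^ 2) := by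
          refine (exp_neg_le (by positivity)).trans (le_of_eq ?_)
          have e1 : Real.log ((2 ^ i : ℕ) : ℝ) = i * Real.log 2 := by
            push_cast; rw [Real.log_pow]
          have e2 : √(Real.log ((2 ^ i : ℕ) : ℝ)) ^ 4 = (i * Real.log 2) ^ 2 := by
            rw [show (4 : ℕ) = 2 * 2 from rfl, pow_mul, Real.sq_sqrt hx0.le, e1]
          rw [mul_pow, e2]
          field_simp
        have hsub : {β : ℝ | p i β} ⊆ {β : ℝ | ((b : ℝ) ^ m0)⁻¹ < β ∧ β ≤ (b : ℝ) ^ m0 ∧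
            (1 / (i : ℝ) ^ 2 + K * VT T / i < |mT σ b z T (NB b β z) - kap b * VT T|)} ∪
            {β : ℝ | ((b : ℝ) ^ m0)⁻¹ < β ∧ β ≤ (b : ℝ) ^ m0 ∧
            (√(Real.log ((2 ^ i : ℕ) : ℝ)) < ((hits σ T b (2 ^ (i + 1)) (NB b β (2 ^ (i + 1)))).card : ℝ))} := by
          rintro β ⟨_, g1, g2, g3⟩
          unfold Gd at g3
          rw [not_and_or, not_le, not_le] at g3
          rcases g3 with g3 | g3
          · exact Or.inl ⟨g1, g2, g3⟩
          · exact Or.inr ⟨g1, g2, g3⟩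
        calc volume {β : ℝ | p i β} ≤ _ := measure_mono hsub
          _ ≤ _ := measure_union_le _ _
          _ ≤ ENNReal.ofReal (1 / (i : ℝ) ^ 2) +
              ENNReal.ofReal ((b : ℝ) ^ m0 * Real.exp (-(c * √(Real.log ((2 ^ i : ℕ) : ℝ))))) :=
              add_le_add hA hB
          _ = ENNReal.ofReal (1 / (i : ℝ) ^ 2 +
              (b : ℝ) ^ m0 * Real.exp (-(c * √(Real.log ((2 ^ i : ℕ) : ℝ))))) :=
              (ENNReal.ofReal_add (by positivity) (by positivity)).symm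
          _ ≤ _ := by
              refine ENNReal.ofReal_le_ofReal ?_
              rw [hC', add_mul, one_mul, mul_assoc]
              have : (0 : ℝ) ≤ (b : ℝ) ^ m0 := by positivity
              have := mul_le_mul_of_nonneg_left hexp this
              linarith
      · have : {β : ℝ | p i β} = ∅ := by
          rw [Set.eq_empty_iff_forall_notMem]
          rintro β ⟨h1, _⟩
          exact hi h1
        rw [this, measure_empty]
        exact zero_le
    have hsum : ∑' i : ℕ, volume {β : ℝ | p i β} ≠ ⊤ := by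
      refine ne_top_of_le_ne_top ?_ (ENNReal.tsum_le_tsum hmeas)
      have hs : Summable fun i : ℕ => C' * (1 / (i : ℝ) ^ 2) :=
        (Real.summable_one_div_nat_pow.2 (show 1 < 2 by norm_num)).mul_left _
      have hC'0 : 0 < C' := by positivity
      rw [← ENNReal.ofReal_tsum_of_nonneg (fun i => by positivity) hs]
      exact ENNReal.ofReal_ne_top
    have hfr := measure_setOfPred_frequently_eq_zero hsum
    have hae1 : ∀ᵐ β : ℝ, ¬ ∃ᶠ i in atTop, p i β := by
      rw [ae_iff]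
      simpa only [not_not] using hfr
    filter_upwards [hae1] with β hβ h1 h2
    rw [not_frequently] at hβ
    filter_upwards [hβ, eventually_ge_atTop i0] with i h3 h4
    by_contra hcon
    exact h3 ⟨h4, h1, h2, hcon⟩
  have hae' : ∀ᵐ β : ℝ, ∀ m0 : ℕ, ((b : ℝ) ^ m0)⁻¹ < β → β ≤ (b : ℝ) ^ m0 →
      ∀ᶠ i : ℕ in atTop, Gd σ b k1 K S β i := ae_all_iff.2 hae
  filter_upwards [hae'] with β hβ hβ0
  obtain ⟨m0, hm1, hm2⟩ : ∃ m0 : ℕ, ((b : ℝ) ^ m0)⁻¹ < β ∧ β ≤ (b : ℝ) ^ m0 := by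
    have hb1 : (1 : ℝ) < b := by exact_mod_cast (by omega : 1 < b)
    have ht : Tendsto (fun m : ℕ => (b : ℝ) ^ m) atTop atTop := tendsto_pow_atTop_atTop_of_one_lt hb1
    obtain ⟨m0, h1, h2⟩ := ((ht.eventually_ge_atTop β).and (ht.eventually_gt_atTop β⁻¹)).exists
    exact ⟨m0, by rw [inv_lt_comm₀ (by positivity) hβ0]; exact h2, h1⟩
  exact hβ m0 hm1 hm2


end Pool.Agent.N176.SH
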