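import Mathlib
import Pool.Agent.N441.OW.WIN
import Pool.Agent.N176.SH.M

set_option autoImplicit false

/-!
# Shifted digits: all windows (after the files `N441/OW/W1.lean`, `N441/OW/W2.lean`, `N441/OW/WIN.lean`
of helper441)
-/

namespace Pool.Agent.N176.SH

open Finset Filter Topology MeasureTheory
open Pool.Agent.N176.GP (NB)
open Pool.Agent.H305R2 (roughPart)
open Pool.Agent.N176.OW (cell kap VT TS VS VP DP dl dl_nonneg VT_nonneg VS_step VS_nonneg VS_mono VT_bound DP_bound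
  Par choose_s dev_up dev_low)
open Pool.Agent.N441.OW (cut TS_cut_lt TS_cut_ge VS_cut VS_tele sum_res exp_bound VS_one sqrt_bound)

lemma MB_cut (σ : ℕ → ℤ) (b : ℕ) (S : Set ℕ) (β : ℝ) (J n : ℕ) :
    MB σ b (cut S J) β n = MB σ b S β (min n (2 ^ J)) := by
  classical
  unfold MB cut
  congr 1
  ext p
  simp only [mem_filter, mem_range, Set.mem_ofPred_eq]
  constructor
  · rintro ⟨h2, h3, ⟨h4, h5⟩, h6⟩
    exact ⟨by omega, h3, h4, h6⟩
  · rintro ⟨h2, h3, h4, h6⟩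
    exact ⟨by omega, h3, ⟨h4, by omega⟩, h6⟩

lemma MB_mono (σ : ℕ → ℤ) (b : ℕ) (S : Set ℕ) (β : ℝ) : Monotone (MB σ b S β) := by
  classical
  intro m n hmn
  unfold MB
  refine Finset.card_le_card ?_
  intro p hp
  rw [mem_filter, mem_range] at hp ⊢
  exact ⟨by omega, hp.2⟩

lemma Gd_cut {σ : ℕ → ℤ} {b k1 : ℕ} {K : ℝ} (hK : 0 < K) {S : Set ℕ} {β : ℝ} {J i : ℕ}
    (h : Gd σ b k1 K S β i) : Gd σ b k1 K (cut S J) β i := by
  rcases Nat.lt_or_ge i J with h1 | h1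
  · unfold Gd NBl dl at h ⊢
    rw [TS_cut_lt h1]
    exact h
  · unfold Gd NBl
    have h2 := dl_nonneg hK.le (cut S J) i
    rw [TS_cut_ge h1]
    constructor
    · have h3 : mT σ b (2 ^ (i + 1 - k1)) ∅ (NB b β (2 ^ (i + 1 - k1))) = 0 := by
        unfold mT
        exact Finset.sum_empty
      have h4 : VT ∅ = 0 := by
        unfold VT
        exact Finset.sum_empty
      rw [h3, h4, mul_zero, sub_zero, abs_zero]
      exact h2
    · have h5 : hits σ ∅ b (2 ^ (i + 1)) (NB b β (2 ^ (i + 1))) = ∅ := by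
        unfold hits
        exact Finset.filter_empty _
      rw [h5, Finset.card_empty]
      push_cast
      exact Real.sqrt_nonneg _

lemma MB_tele {σ : ℕ → ℤ} {b : ℕ} (hb : 2 ≤ b) (S : Set ℕ) {β : ℝ} (hβ : 0 < β) (I M : ℕ) :
    ∑ n ∈ range M, NBl σ b S β (I + n) + MB σ b S β (2 ^ I) = MB σ b S β (2 ^ (I + M)) := by
  induction M with
  | zero => simp
  | succ M ih =>
    rw [Finset.sum_range_succ, ← add_assoc I M 1, MB_step hb S hβ, ← ih]
    ring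

open Classical in
/-- one window, one residue class -/
theorem step1 {σ : ℕ → ℤ} {Z b : ℕ} (hb : 2 ≤ b) {s1 C : ℝ} {P k1 : ℕ} {K : ℝ} (hk1 : 7 ≤ k1)
    (hZ : Z ≤ 2 ^ (k1 - 1)) (hK : 0 < K)
    (hBL : ∀ x ≥ P, ∀ T : Finset ℕ, (∀ p ∈ T, p.Prime ∧ x < p ∧ p ≤ 2 * x) → ∀ z : ℕ, Z * z ≤ x →
      ∀ t : ℕ, 2 * x ≤ t → ∀ j : ℕ, 1 ≤ j → j ≤ b ^ (2 * z) → ∀ δ : ℝ, 0 ≤ δ →
      |mT σ b z T j - kap b * VT T| ≤ δ → ∀ s : ℝ, |s| ≤ s1 →
      ∑ n ∈ (cell b z t j).filter (fun n => ((hits σ T b t n).card : ℝ) ≤ √(Real.log x)),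
        (1 + s) ^ (hits σ T b t n).card ≤
        Real.exp (s * (kap b * VT T) + |s| * δ + C * s ^ 2 * VT T) * (b : ℝ) ^ (t - z))
    {C0 : ℝ} (hC0 : 0 < C0)
    (hDP : ∀ (S : Set ℕ) (a i : ℕ), 1 ≤ a →
      DP K S k1 a i ≤ 2 + K * C0 * Real.log (VS S (2 ^ (a + i * k1)) + 3))
    {A : ℝ} (hPar : Par (kap b) C (2 + K * C0) s1 A)
    (S : Set ℕ) {m0 a : ℕ} (ha1 : P ≤ 2 ^ a) (ha2 : k1 ≤ a) (ha3 : m0 ≤ 2 ^ (a + 1 - k1)) (J : ℕ) :
    volume {β : ℝ | ((b : ℝ) ^ m0)⁻¹ < β ∧ β ≤ (b : ℝ) ^ m0 ∧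
      (∀ l < J, Gd σ b k1 K (cut S J) β (a + l * k1)) ∧
      A * (√(VP (cut S J) k1 a J * Real.log (VS S (2 ^ J) + 3)) + Real.log (VS S (2 ^ J) + 3)) ≤
        |(NP σ b (cut S J) β k1 a J : ℝ) - kap b * VP (cut S J) k1 a J|} ≤
      ENNReal.ofReal (2 * (b : ℝ) ^ m0 * Real.exp (-(5 * Real.log (VS S (2 ^ J) + 3)))) := by
  set L := Real.log (VS S (2 ^ J) + 3) with hL
  set Vm := VP (cut S J) k1 a J with hVm
  set Δ := DP K (cut S J) k1 a J with hΔ
  have hV0 := VS_nonneg S (2 ^ J)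
  have hL1 : 1 ≤ L := by
    rw [hL, Real.le_log_iff_exp_le (by linarith)]
    have := Real.exp_one_lt_d9
    linarith
  have hL0 : 0 < L := by linarith
  have hVm0 : 0 ≤ Vm := Finset.sum_nonneg fun l _ => VT_nonneg _
  have hΔL : Δ ≤ (2 + K * C0) * L := by
    have h1 := hDP (cut S J) a J (by omega)
    rw [VS_cut] at h1
    have h2 : Real.log (VS S (min (2 ^ (a + J * k1)) (2 ^ J)) + 3) ≤ L := by
      rw [hL]
      refine Real.log_le_log (by have := VS_nonneg S (min (2 ^ (a + J * k1)) (2 ^ J)); linarith) ?_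
      have := VS_mono S (Nat.min_le_right (2 ^ (a + J * k1)) (2 ^ J))
      linarith
    have h3 : 0 ≤ K * C0 := by positivity
    have h4 := mul_le_mul_of_nonneg_left h2 h3
    nlinarith
  obtain ⟨s, hs0, hs1', hsV, hsD⟩ := choose_s hPar.hs1 hPar.hs12 hVm0 hL0
  have hsΔ : s * Δ ≤ (2 + K * C0) * L := by
    have h1 := mul_le_mul_of_nonneg_left hΔL hs0.le
    have h2 : s ≤ 1 := by
      have := hPar.hs12
      linarith
    have h3 : 0 ≤ (2 + K * C0) * L := by positivity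
    nlinarith
  have hlam : (0 : ℝ) < Real.exp (5 * L) := Real.exp_pos _
  have c1 := core hb hk1 hZ hK hPar.hs12 hBL (cut S J) ha1 ha2 ha3 (s := s)
    (by rw [abs_of_pos hs0]; exact hs1') hlam
  have c2 := core hb hk1 hZ hK hPar.hs12 hBL (cut S J) ha1 ha2 ha3 (s := -s)
    (by rw [abs_neg, abs_of_pos hs0]; exact hs1') hlam
  refine (measure_mono ?_).trans ((measure_union_le _ _).trans ((add_le_add c1 c2).trans ?_))
  · rintro β ⟨h1, h2, h3, h4⟩
    rcases le_abs.1 h4 with h5 | h5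
    · left
      refine ⟨h1, h2, J, h3, ?_⟩
      exact dev_up hPar hs0 hs1' hL0 hVm0 le_rfl hsV hsD hsΔ (by linarith)
    · right
      refine ⟨h1, h2, J, h3, ?_⟩
      exact dev_low hPar hs0 hs1' hL0 hVm0 le_rfl hsV hsD hsΔ (by linarith)
  · rw [← ENNReal.ofReal_add (by positivity) (by positivity)]
    refine ENNReal.ofReal_le_ofReal (le_of_eq ?_)
    rw [Real.exp_neg]
    ring

open Classical in
theorem grid {σ : ℕ → ℤ} {Z b : ℕ} (hb : 2 ≤ b) {s1 C : ℝ} {P k1 : ℕ} {K : ℝ} (hk1 : 7 ≤ k1)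
    (hZ : Z ≤ 2 ^ (k1 - 1)) (hK : 0 < K)
    (hBL : ∀ x ≥ P, ∀ T : Finset ℕ, (∀ p ∈ T, p.Prime ∧ x < p ∧ p ≤ 2 * x) → ∀ z : ℕ, Z * z ≤ x →
      ∀ t : ℕ, 2 * x ≤ t → ∀ j : ℕ, 1 ≤ j → j ≤ b ^ (2 * z) → ∀ δ : ℝ, 0 ≤ δ →
      |mT σ b z T j - kap b * VT T| ≤ δ → ∀ s : ℝ, |s| ≤ s1 →
      ∑ n ∈ (cell b z t j).filter (fun n => ((hits σ T b t n).card : ℝ) ≤ √(Real.log x)),
        (1 + s) ^ (hits σ T b t n).card ≤
        Real.exp (s * (kap b * VT T) + |s| * δ + C * s ^ 2 * VT T) * (b : ℝ) ^ (t - z))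
    {C0 : ℝ} (hC0 : 0 < C0)
    (hDP : ∀ (S : Set ℕ) (a i : ℕ), 1 ≤ a →
      DP K S k1 a i ≤ 2 + K * C0 * Real.log (VS S (2 ^ (a + i * k1)) + 3))
    {A : ℝ} (hPar : Par (kap b) C (2 + K * C0) s1 A) (hA : 0 < A)
    (S : Set ℕ) (hGd : ∀ᵐ β : ℝ, 0 < β → ∀ᶠ i : ℕ in atTop, Gd σ b k1 K S β i)
    (g : ℕ → ℕ) (hgm : Monotone g) (hg1 : ∀ k : ℕ, (k : ℝ) ≤ VS S (2 ^ g k))
    (hg : Tendsto g atTop atTop) :
    ∀ᵐ β : ℝ, 0 < β → ∃ k0 : ℕ, ∀ k ≥ k0, ∀ k' ≥ k,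
      |((MB σ b S β (2 ^ g k') : ℝ) - MB σ b S β (2 ^ g k)) -
        kap b * (VS S (2 ^ g k') - VS S (2 ^ g k))| ≤
        k1 * (A * (√((VS S (2 ^ g k') - VS S (2 ^ g k)) * Real.log (VS S (2 ^ g k') + 3)) +
          Real.log (VS S (2 ^ g k') + 3))) := by
  have hb0 : (0 : ℝ) < b := by positivity
  have hae : ∀ m0 : ℕ, ∀ᵐ β : ℝ, ((b : ℝ) ^ m0)⁻¹ < β → β ≤ (b : ℝ) ^ m0 →
      ∃ k0 a0 : ℕ, ∀ k' ≥ k0, ∀ k ≤ k', a0 ≤ g k →
        (∀ i ≥ g k, Gd σ b k1 K S β i) → ∀ ρ < k1,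
        |(NP σ b (cut S (g k')) β k1 (g k + ρ) (g k') : ℝ) -
          kap b * VP (cut S (g k')) k1 (g k + ρ) (g k')| <
        A * (√(VP (cut S (g k')) k1 (g k + ρ) (g k') * Real.log (VS S (2 ^ g k') + 3)) +
          Real.log (VS S (2 ^ g k') + 3)) := by
    intro m0
    have hpow : Tendsto (fun i : ℕ => 2 ^ (i + 1 - k1)) atTop atTop := by
      refine (tendsto_pow_atTop_atTop_of_one_lt (by norm_num)).comp ?_
      exact tendsto_atTop_mono (fun i => show i - k1 ≤ i + 1 - k1 by omega)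
        (tendsto_sub_atTop_nat k1)
    have hpow2 : Tendsto (fun i : ℕ => 2 ^ i) atTop atTop :=
      tendsto_pow_atTop_atTop_of_one_lt (by norm_num)
    obtain ⟨a0, ha0⟩ := ((hpow.eventually_ge_atTop m0).and ((hpow2.eventually_ge_atTop P).and
      (eventually_ge_atTop k1))).exists_forall_of_atTop
    set q : ℕ → ℕ → ℕ → ℝ → Prop := fun k' k ρ β => a0 ≤ g k ∧ ((b : ℝ) ^ m0)⁻¹ < β ∧
      β ≤ (b : ℝ) ^ m0 ∧
      (∀ l < g k', Gd σ b k1 K (cut S (g k')) β (g k + ρ + l * k1)) ∧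
      A * (√(VP (cut S (g k')) k1 (g k + ρ) (g k') * Real.log (VS S (2 ^ g k') + 3)) +
          Real.log (VS S (2 ^ g k') + 3)) ≤
        |(NP σ b (cut S (g k')) β k1 (g k + ρ) (g k') : ℝ) -
          kap b * VP (cut S (g k')) k1 (g k + ρ) (g k')| with hq
    set p : ℕ → ℝ → Prop := fun k' β => ∃ x ∈ range (k' + 1) ×ˢ range k1, q k' x.1 x.2 β with hp
    set C' : ℝ := k1 * (2 * (b : ℝ) ^ m0) with hC'
    have hq1 : ∀ k' k ρ, volume {β : ℝ | q k' k ρ β} ≤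
        ENNReal.ofReal (2 * (b : ℝ) ^ m0 * (1 / ((k' + 1 : ℕ) : ℝ) ^ 3)) := by
      intro k' k ρ
      by_cases hk : a0 ≤ g k
      · obtain ⟨h1, h2, h3⟩ := ha0 (g k + ρ) (by omega)
        refine (measure_mono ?_).trans ((step1 hb hk1 hZ hK hBL hC0 hDP hPar S h2 h3 h1
          (g k')).trans (ENNReal.ofReal_le_ofReal ?_))
        · rintro β ⟨_, h4⟩
          exact h4
        · refine mul_le_mul_of_nonneg_left ?_ (by positivity)
          refine exp_bound ?_ ?_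
          · push_cast
            have : (0 : ℝ) ≤ k' := Nat.cast_nonneg _
            linarith
          · push_cast
            have := hg1 k'
            linarith
      · have : {β : ℝ | q k' k ρ β} = ∅ := by
          rw [Set.eq_empty_iff_forall_notMem]
          rintro β ⟨h1, _⟩
          exact hk h1
        rw [this, measure_empty]
        exact zero_le
    have hmeas : ∀ k' : ℕ, volume {β : ℝ | p k' β} ≤
        ENNReal.ofReal (C' * (1 / ((k' + 1 : ℕ) : ℝ) ^ 2)) := by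
      intro k'
      have hsub : {β : ℝ | p k' β} ⊆
          ⋃ x ∈ range (k' + 1) ×ˢ range k1, {β : ℝ | q k' x.1 x.2 β} := by
        rintro β ⟨x, hx, h1⟩
        rw [Set.mem_iUnion₂]
        exact ⟨x, hx, h1⟩
      refine (measure_mono hsub).trans ((measure_biUnion_finset_le _ _).trans ?_)
      refine (Finset.sum_le_card_nsmul _ _ _ fun x _ => hq1 k' x.1 x.2).trans ?_
      rw [card_product, card_range, card_range, nsmul_eq_mul, ← ENNReal.ofReal_natCast,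
        ← ENNReal.ofReal_mul (Nat.cast_nonneg _)]
      refine ENNReal.ofReal_le_ofReal (le_of_eq ?_)
      have h1 : ((k' + 1 : ℕ) : ℝ) ≠ 0 := by positivity
      rw [hC', Nat.cast_mul]
      field_simp
    have hsum : ∑' k' : ℕ, volume {β : ℝ | p k' β} ≠ ⊤ := by
      refine ne_top_of_le_ne_top ?_ (ENNReal.tsum_le_tsum hmeas)
      have hs0 : Summable fun i : ℕ => (1 / ((i : ℕ) : ℝ) ^ 2) :=
        Real.summable_one_div_nat_pow.2 (show 1 < 2 by norm_num)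
      have hs : Summable fun i : ℕ => C' * (1 / ((i + 1 : ℕ) : ℝ) ^ 2) :=
        ((summable_nat_add_iff 1).2 hs0).mul_left _
      rw [← ENNReal.ofReal_tsum_of_nonneg (fun i => by positivity) hs]
      exact ENNReal.ofReal_ne_top
    have hfr := measure_setOfPred_frequently_eq_zero hsum
    have hae1 : ∀ᵐ β : ℝ, ¬ ∃ᶠ i in atTop, p i β := by
      rw [ae_iff]
      simpa only [not_not] using hfr
    filter_upwards [hae1] with β hβ h1 h2
    rw [not_frequently] at hβ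
    obtain ⟨k0, hk0⟩ := hβ.exists_forall_of_atTop
    refine ⟨k0, a0, fun k' hk' k hk ha hG ρ hρ => ?_⟩
    by_contra hcon
    refine hk0 k' hk' ⟨(k, ρ), ?_, ha, h1, h2, ?_, not_lt.1 hcon⟩
    · rw [mem_product, mem_range, mem_range]
      exact ⟨by change k < k' + 1; omega, hρ⟩
    · intro l _
      refine Gd_cut hK (hG _ ?_)
      change g k + ρ + l * k1 ≥ g k
      omega
  have hae' : ∀ᵐ β : ℝ, ∀ m0 : ℕ, ((b : ℝ) ^ m0)⁻¹ < β → β ≤ (b : ℝ) ^ m0 →
      ∃ k0 a0 : ℕ, ∀ k' ≥ k0, ∀ k ≤ k', a0 ≤ g k →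
        (∀ i ≥ g k, Gd σ b k1 K S β i) → ∀ ρ < k1,
        |(NP σ b (cut S (g k')) β k1 (g k + ρ) (g k') : ℝ) -
          kap b * VP (cut S (g k')) k1 (g k + ρ) (g k')| <
        A * (√(VP (cut S (g k')) k1 (g k + ρ) (g k') * Real.log (VS S (2 ^ g k') + 3)) +
          Real.log (VS S (2 ^ g k') + 3)) := ae_all_iff.2 hae
  filter_upwards [hae', hGd] with β hβ hβG hβ0
  obtain ⟨m0, hm1, hm2⟩ : ∃ m0 : ℕ, ((b : ℝ) ^ m0)⁻¹ < β ∧ β ≤ (b : ℝ) ^ m0 := by
    have hb1 : (1 : ℝ) < b := by exact_mod_cast (by omega : 1 < b)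
    have ht : Tendsto (fun m : ℕ => (b : ℝ) ^ m) atTop atTop := tendsto_pow_atTop_atTop_of_one_lt hb1
    obtain ⟨m0, h1, h2⟩ := ((ht.eventually_ge_atTop β).and (ht.eventually_gt_atTop β⁻¹)).exists
    exact ⟨m0, by rw [inv_lt_comm₀ (by positivity) hβ0]; exact h2, h1⟩
  obtain ⟨k0, a0, hk0⟩ := hβ m0 hm1 hm2
  obtain ⟨i1, hi1⟩ := (hβG hβ0).exists_forall_of_atTop
  obtain ⟨k2, hk2⟩ := (hg.eventually_ge_atTop (max a0 i1)).exists_forall_of_atTop
  refine ⟨max k0 k2, fun k hk k' hk' => ?_⟩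
  have hk0' : k0 ≤ k := (le_max_left _ _).trans hk
  have hk2' := hk2 k ((le_max_right _ _).trans hk)
  have hgk1 : a0 ≤ g k := (le_max_left _ _).trans hk2'
  have hgk2 : i1 ≤ g k := (le_max_right _ _).trans hk2'
  have key := hk0 k' (hk0'.trans hk') k hk' hgk1 (fun i hi => hi1 i (hgk2.trans hi))
  set I := g k with hI
  set J := g k' with hJ
  have hIJ : I ≤ J := hgm hk'
  set L := Real.log (VS S (2 ^ J) + 3) with hL
  have hL0 : 0 ≤ L := Real.log_nonneg (by have := VS_nonneg S (2 ^ J); linarith)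
  have hIJ' : 2 ^ I ≤ 2 ^ J := Nat.pow_le_pow_right (by norm_num) hIJ
  have hJk : J ≤ J * k1 := Nat.le_mul_of_pos_right _ (by omega)
  have hJ' : 2 ^ J ≤ 2 ^ (I + J * k1) := Nat.pow_le_pow_right (by norm_num) (by omega)
  have hN : (∑ ρ ∈ range k1, (NP σ b (cut S J) β k1 (I + ρ) J : ℝ)) =
      (MB σ b S β (2 ^ J) : ℝ) - MB σ b S β (2 ^ I) := by
    have h1 := sum_res (NBl σ b (cut S J) β) k1 I J
    have h2 := MB_tele (σ := σ) hb (cut S J) hβ0 I (J * k1)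
    rw [← h1, MB_cut, MB_cut, Nat.min_eq_left hIJ', Nat.min_eq_right hJ'] at h2
    rw [eq_sub_iff_add_eq]
    rw [← h2]
    simp only [NP, Nat.cast_sum, Nat.cast_add]
  have hV : (∑ ρ ∈ range k1, VP (cut S J) k1 (I + ρ) J) = VS S (2 ^ J) - VS S (2 ^ I) := by
    have h1 := sum_res (fun i => VT (TS (cut S J) i)) k1 I J
    have h2 := VS_tele (cut S J) I (J * k1)
    rw [← h1, VS_cut, VS_cut, Nat.min_eq_left hIJ', Nat.min_eq_right hJ'] at h2
    exact h2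
  have hVP0 : ∀ ρ, 0 ≤ VP (cut S J) k1 (I + ρ) J := fun ρ =>
    Finset.sum_nonneg fun l _ => VT_nonneg _
  have e1 : ((MB σ b S β (2 ^ J) : ℝ) - MB σ b S β (2 ^ I)) - kap b * (VS S (2 ^ J) - VS S (2 ^ I)) =
      ∑ ρ ∈ range k1, ((NP σ b (cut S J) β k1 (I + ρ) J : ℝ) -
        kap b * VP (cut S J) k1 (I + ρ) J) := by
    rw [Finset.sum_sub_distrib, ← Finset.mul_sum, hN, hV]
  rw [e1]
  refine (Finset.abs_sum_le_sum_abs _ _).trans ?_
  have h1 : ∀ ρ ∈ range k1, |(NP σ b (cut S J) β k1 (I + ρ) J : ℝ) -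
      kap b * VP (cut S J) k1 (I + ρ) J| ≤
      A * (√((VS S (2 ^ J) - VS S (2 ^ I)) * L) + L) := by
    intro ρ hρ
    refine (key ρ (mem_range.1 hρ)).le.trans ?_
    refine mul_le_mul_of_nonneg_left ?_ hA.le
    refine add_le_add ?_ le_rfl
    refine Real.sqrt_le_sqrt (mul_le_mul_of_nonneg_right ?_ hL0)
    rw [← hV]
    exact Finset.single_le_sum (f := fun ρ => VP (cut S J) k1 (I + ρ) J)
      (fun ρ _ => hVP0 ρ) hρ
  refine (Finset.sum_le_card_nsmul _ _ _ h1).trans ?_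
  rw [card_range, nsmul_eq_mul]

/-- shifted digits, all windows -/
def S_WIN : Prop := ∀ (b Z : ℕ) (σ : ℕ → ℤ), Ok b Z σ → ∃ C : ℝ, 0 < C ∧ ∀ S : Set ℕ,
  Tendsto (fun n => VS S n) atTop atTop → ∀ᵐ β : ℝ, 0 < β → ∀ᶠ n : ℕ in atTop, ∀ n' ≥ n,
    |((MB σ b S β n' : ℝ) - MB σ b S β n) - kap b * (VS S n' - VS S n)| ≤
      C * (√((VS S n' - VS S n) * Real.log (VS S n')) + Real.log (VS S n'))

/-- **SH/WIN** -/
theorem win (hBL : S_BL) (hEX : S_EX) (hGC : S_GC) : S_WIN := by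
  classical
  intro b Z σ hOk
  have hb := hOk.hb
  obtain ⟨s1, C, hs1, hs12, hC, P, hBL⟩ := hBL b Z σ hOk
  obtain ⟨s2, C2, c2, hs2, hs22, hC2, hc2, P2, hEX⟩ := hEX b Z σ hOk
  obtain ⟨k1, hk1, hZ, K, hK, hGC⟩ := hGC b Z σ hOk
  obtain ⟨C0, hC0, hVT⟩ := VT_bound
  obtain ⟨Cd, hCd, hDP⟩ := DP_bound
  have hb1 : (1 : ℝ) < b := by exact_mod_cast (by omega : 1 < b)
  have hκ : 0 < kap b := by
    unfold kap
    exact div_pos (Real.exp_pos _) (Real.log_pos hb1)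
  set A : ℝ := (10 + 2 * (2 + K * Cd) + 2 * C + 4 * kap b) / s1 with hAdef
  have hA : 0 < A := by positivity
  have hPar : Par (kap b) C (2 + K * Cd) s1 A := ⟨hκ, hC, by positivity, hs1, hs12, hAdef⟩
  set c : ℝ := 2 * C0 + 3 with hcdef
  have hc1 : 1 ≤ c := by rw [hcdef]; linarith
  have hk10 : (0 : ℝ) < k1 := by exact_mod_cast (by omega : 0 < k1)
  refine ⟨kap b * c + 2 * (k1 * A) * (c + 1), by positivity, fun S hS => ?_⟩
  have hGd := good_ae hb hk1 hZ hc2 (P := P2) (K := K)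
    (fun x hx T hT z hz t ht j h1 h2 => (hEX x hx T hT z hz t ht j h1 h2).2) hGC S
  -- the grid
  have hpow2 : Tendsto (fun i : ℕ => 2 ^ i) atTop atTop :=
    tendsto_pow_atTop_atTop_of_one_lt (by norm_num)
  have hS2 : Tendsto (fun i : ℕ => VS S (2 ^ i)) atTop atTop := hS.comp hpow2
  have hex : ∀ k : ℕ, ∃ i : ℕ, (k : ℝ) ≤ VS S (2 ^ i) := fun k =>
    (hS2.eventually_ge_atTop (k : ℝ)).exists
  set g : ℕ → ℕ := fun k => Nat.find (hex k) with hg
  have hg1 : ∀ k : ℕ, (k : ℝ) ≤ VS S (2 ^ g k) := fun k => Nat.find_spec (hex k)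
  have hgm : Monotone g := by
    intro k k' hkk
    refine Nat.find_min' (hex k) ?_
    have h1 := hg1 k'
    have h2 : (k : ℝ) ≤ k' := by exact_mod_cast hkk
    exact h2.trans h1
  have hg2 : ∀ k : ℕ, VS S (2 ^ g k) ≤ k + C0 := by
    intro k
    rcases Nat.eq_zero_or_pos (g k) with h0 | h0
    · rw [h0, VS_one]
      positivity
    · obtain ⟨i, hi⟩ : ∃ i, g k = i + 1 := ⟨g k - 1, by omega⟩
      have h1 : ¬ (k : ℝ) ≤ VS S (2 ^ i) := Nat.find_min (hex k) (by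
        change i < g k
        omega)
      rw [hi, VS_step]
      have := hVT S i
      linarith [not_le.1 h1]
  have hgt : Tendsto g atTop atTop := by
    refine tendsto_atTop_atTop.2 fun i => ?_
    obtain ⟨k, hk⟩ := exists_nat_gt (VS S (2 ^ i))
    refine ⟨k, fun k' hk' => ?_⟩
    by_contra hcon
    have h1 := hg1 k'
    have h2 : VS S (2 ^ g k') ≤ VS S (2 ^ i) :=
      VS_mono S (Nat.pow_le_pow_right (by norm_num) (by omega))
    have h3 : (k : ℝ) ≤ k' := by exact_mod_cast hk'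
    linarith
  filter_upwards [grid hb hk1 hZ hK hBL hCd
    (fun S a i ha => hDP K S k1 a i hK (by omega) ha) hPar hA S hGd g hgm hg1 hgt] with β hβ hβ0
  obtain ⟨k0, hk0⟩ := hβ hβ0
  filter_upwards [hS.eventually_ge_atTop ((k0 : ℝ) + C0 + 5)] with n hn n' hn'
  have hVV : VS S n ≤ VS S n' := VS_mono S hn'
  set V := VS S n with hV
  set V' := VS S n' with hV'
  have hk00 : (0 : ℝ) ≤ k0 := Nat.cast_nonneg _
  have hy1 : 1 ≤ Real.log V' := by
    rw [Real.le_log_iff_exp_le (by linarith)]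
    have := Real.exp_one_lt_d9
    linarith
  set y := Real.log V' with hy
  -- lower and upper grid points
  have hlow : ∀ m : ℕ, (k0 : ℝ) + C0 + 5 ≤ VS S m → ∃ k : ℕ, k0 ≤ k ∧ (k : ℝ) ≤ VS S m - C0 - 1 ∧
      VS S m - C0 - 2 < k ∧ 2 ^ g k ≤ m := by
    intro m hm
    have h1 : (0 : ℝ) ≤ VS S m - C0 - 1 := by linarith
    refine ⟨⌊VS S m - C0 - 1⌋₊, Nat.le_floor (by linarith), Nat.floor_le h1, ?_, ?_⟩
    · have := Nat.lt_floor_add_one (VS S m - C0 - 1)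
      linarith
    · by_contra hcon
      have h2 := hg2 ⌊VS S m - C0 - 1⌋₊
      have h3 := Nat.floor_le h1
      have h4 : VS S m ≤ VS S (2 ^ g ⌊VS S m - C0 - 1⌋₊) := VS_mono S (by omega)
      linarith
  have hhigh : ∀ m : ℕ, (k0 : ℝ) + C0 + 5 ≤ VS S m → ∃ k : ℕ, k0 ≤ k ∧ (k : ℝ) ≤ VS S m + 1 ∧
      VS S m < k ∧ m ≤ 2 ^ g k := by
    intro m hm
    have h1 : (0 : ℝ) ≤ VS S m := VS_nonneg S m
    refine ⟨⌊VS S m⌋₊ + 1, ?_, ?_, ?_, ?_⟩
    · have := Nat.le_floor (a := VS S m) (n := k0) (by linarith)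
      omega
    · push_cast
      have := Nat.floor_le h1
      linarith
    · push_cast
      exact Nat.lt_floor_add_one _
    · by_contra hcon
      have h2 := hg1 (⌊VS S m⌋₊ + 1)
      have h3 := Nat.lt_floor_add_one (VS S m)
      have h4 : VS S (2 ^ g (⌊VS S m⌋₊ + 1)) ≤ VS S m := VS_mono S (by omega)
      push_cast at h2
      linarith
  obtain ⟨kl, hkl0, hkl1, hkl2, hkl3⟩ := hlow n hn
  obtain ⟨kh, hkh0, hkh1, hkh2, hkh3⟩ := hhigh n hn
  obtain ⟨ql, hql0, hql1, hql2, hql3⟩ := hlow n' (hn.trans hVV)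
  obtain ⟨qh, hqh0, hqh1, hqh2, hqh3⟩ := hhigh n' (hn.trans hVV)
  rw [← hV] at hkl1 hkl2 hkh1 hkh2
  rw [← hV'] at hql1 hql2 hqh1 hqh2
  -- the error terms
  have herr : ∀ k k' : ℕ, k ≤ k' → VS S (2 ^ g k') ≤ V' + C0 + 2 →
      VS S (2 ^ g k') - VS S (2 ^ g k) ≤ (V' - V) + c →
      k1 * (A * (√((VS S (2 ^ g k') - VS S (2 ^ g k)) * Real.log (VS S (2 ^ g k') + 3)) +
          Real.log (VS S (2 ^ g k') + 3))) ≤
        2 * (k1 * A) * (√((V' - V) * y) + (c + 1) * y) := by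
    intro k k' hkk h1 h2
    have h3 : Real.log (VS S (2 ^ g k') + 3) ≤ 2 * y := by
      have h4 : Real.log (V' ^ 2) = 2 * y := by
        rw [Real.log_pow]
        push_cast
        rfl
      rw [← h4]
      refine Real.log_le_log (by have := VS_nonneg S (2 ^ g k'); linarith) ?_
      nlinarith
    have h3' : 0 ≤ Real.log (VS S (2 ^ g k') + 3) := Real.log_nonneg (by
      have := VS_nonneg S (2 ^ g k'); linarith)
    have h5 : 0 ≤ VS S (2 ^ g k') - VS S (2 ^ g k) := sub_nonneg.2 (VS_mono S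
      (Nat.pow_le_pow_right (by norm_num) (hgm hkk)))
    have h6 : √((VS S (2 ^ g k') - VS S (2 ^ g k)) * Real.log (VS S (2 ^ g k') + 3)) ≤
        2 * √((V' - V) * y) + 2 * (c * y) := by
      refine (Real.sqrt_le_sqrt ?_).trans (sqrt_bound (sub_nonneg.2 hVV) hc1 hy1)
      exact mul_le_mul h2 h3 h3' (by linarith)
    have h7 : A * (√((VS S (2 ^ g k') - VS S (2 ^ g k)) * Real.log (VS S (2 ^ g k') + 3)) +
          Real.log (VS S (2 ^ g k') + 3)) ≤ A * (2 * √((V' - V) * y) + 2 * (c * y) + 2 * y) :=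
      mul_le_mul_of_nonneg_left (by linarith) hA.le
    refine (mul_le_mul_of_nonneg_left h7 hk10.le).trans (le_of_eq ?_)
    ring
  have hsq : 0 ≤ √((V' - V) * y) := Real.sqrt_nonneg _
  have hMm : ∀ {m m' : ℕ}, m ≤ m' → (MB σ b S β m : ℝ) ≤ MB σ b S β m' := fun {m m'} h => by
    exact_mod_cast MB_mono σ b S β h
  have hfin : kap b * c + 2 * (k1 * A) * (√((V' - V) * y) + (c + 1) * y) ≤
      (kap b * c + 2 * (k1 * A) * (c + 1)) * (√((V' - V) * y) + y) := by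
    have h1 : 0 ≤ kap b * c := by positivity
    have h2 : 0 ≤ 2 * (k1 * A) := by positivity
    have h3 : kap b * c ≤ kap b * c * (√((V' - V) * y) + y) := by nlinarith
    have h4 : √((V' - V) * y) + (c + 1) * y ≤ (c + 1) * (√((V' - V) * y) + y) := by nlinarith
    have h5 := mul_le_mul_of_nonneg_left h4 h2
    nlinarith
  refine le_trans ?_ hfin
  rw [abs_le]
  constructor
  · -- lower bound
    rcases Nat.lt_or_ge ql kh with hlt | hge
    · have h1 : (ql : ℝ) < kh := by exact_mod_cast hlt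
      have h2 : V' - V ≤ c := by
        rw [hcdef]
        linarith
      have h3 := hMm hn'
      have h4 : kap b * (V' - V) ≤ kap b * c := mul_le_mul_of_nonneg_left h2 hκ.le
      have h5 : 0 ≤ 2 * (k1 * A) * (√((V' - V) * y) + (c + 1) * y) := by positivity
      linarith
    · have hkq : k0 ≤ kh := hkh0
      have h1 := (abs_le.1 (hk0 kh hkq ql hge)).1
      have h2 : VS S (2 ^ g ql) ≤ V' := VS_mono S hql3
      have h3 : V ≤ VS S (2 ^ g kh) := VS_mono S hkh3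
      have h4 := herr kh ql hge (by linarith) (by linarith)
      have h5 := hMm hql3
      have h6 := hMm hkh3
      have h7 := hg1 ql
      have h8 := hg2 kh
      have h9 : (V' - V) - c ≤ VS S (2 ^ g ql) - VS S (2 ^ g kh) := by
        rw [hcdef]
        linarith
      have h10 := mul_le_mul_of_nonneg_left h9 hκ.le
      rw [mul_sub] at h10
      linarith
  · -- upper bound
    have hkq : kl ≤ qh := by
      have : (kl : ℝ) ≤ qh := by linarith
      exact_mod_cast this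
    have h1 := (abs_le.1 (hk0 kl hkl0 qh hkq)).2
    have h2 := hg2 qh
    have h3 := hg1 kl
    have h4 := herr kl qh hkq (by linarith) (by rw [hcdef]; linarith)
    have h5 := hMm hqh3
    have h6 := hMm hkl3
    have h9 : VS S (2 ^ g qh) - VS S (2 ^ g kl) ≤ (V' - V) + c := by
      rw [hcdef]
      linarith
    have h10 := mul_le_mul_of_nonneg_left h9 hκ.le
    rw [mul_add] at h10
    linarith

end Pool.Agent.N176.SH
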