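import Mathlib
import Pool.Agent.N176.SH.Univ

set_option autoImplicit false

/-!
# Shifted digits: all pairs at once
-/

namespace Pool.Agent.N176.SH

open Finset Filter Topology MeasureTheory
open Pool.Agent.N176.GP (NB)
open Pool.Agent.H305R2 (roughPart)
open Pool.Agent.N176.OW (kap VS VS_mono VS_nonneg)

open Classical in
/-- the number of primes `p ≤ n` in `S` with `WW a b β p` prime -/
noncomputable def MW (a : ℕ) (b : ℤ) (S : Set ℕ) (β : ℝ) (n : ℕ) : ℕ :=
  ((range (n + 1)).filter (fun p => p.Prime ∧ p ∈ S ∧ (WW a b β p).Prime)).card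

lemma WW_eq {a : ℕ} (ha : 2 ≤ a) {b : ℤ} (hb : 1 ≤ |b|) {β : ℝ} (hβ : 0 < β) {p : ℕ}
    (hp : Odd p ∨ 0 < b) : roughPart p (sh (cc a b) p (NB a β p)) = WW a b β p := by
  unfold sh WW
  have hx : 0 < β * (a : ℝ) ^ p := by positivity
  have h1 : 1 ≤ ⌈β * (a : ℝ) ^ p⌉₊ := Nat.one_le_iff_ne_zero.2 (Nat.ceil_pos.2 hx).ne'
  have h2 : ((NB a β p : ℕ) : ℤ) = ⌈β * (a : ℝ) ^ p⌉ - 1 := by
    unfold NB
    rw [Nat.cast_sub h1, Int.natCast_ceil_eq_ceil hx.le]
    rfl
  have h3 : cc a b p = 1 - ⌈(b : ℝ) ^ p / ((a : ℝ) - b)⌉ := by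
    unfold cc
    by_cases hb0 : 0 < b
    · rw [if_pos hb0]
    · rw [if_neg hb0]
      have hodd : Odd p := hp.resolve_right hb0
      have hneg : b < 0 := by
        rcases lt_trichotomy b 0 with h | h | h
        · exact h
        · rw [h] at hb
          simp at hb
        · exact absurd h hb0
      have hbr : (b : ℝ) < 0 := by exact_mod_cast hneg
      have h4 : (b : ℝ) ^ p / ((a : ℝ) - b) = -((|b| : ℝ) ^ p / ((a : ℝ) - b)) := by
        have h5 : (|b| : ℝ) ^ p = -(b : ℝ) ^ p := by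
          rw [abs_of_neg hbr, hodd.neg_pow]
        rw [h5]
        ring
      rw [h4, Int.ceil_neg]
      ring
  rw [h2, h3]
  congr 2
  ring

/-- the two counting functions differ by a constant -/
lemma MW_diff {a : ℕ} (ha : 2 ≤ a) {b : ℤ} (hb : 1 ≤ |b|) {β : ℝ} (hβ : 0 < β) (S : Set ℕ) :
    ∃ e : ℝ, |e| ≤ 1 ∧ ∀ n ≥ 2, (MW a b S β n : ℝ) = MB (cc a b) a S β n + e := by
  classical
  set f : ℕ → ℝ := fun p => if p.Prime ∧ p ∈ S ∧ (WW a b β p).Prime then 1 else 0 with hf
  set g : ℕ → ℝ := fun p => if p.Prime ∧ p ∈ S ∧ (roughPart p (sh (cc a b) p (NB a β p))).Prime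
    then 1 else 0 with hg
  refine ⟨f 2 - g 2, ?_, fun n hn => ?_⟩
  · simp only [hf, hg]
    split_ifs <;> norm_num
  · have h1 : (MW a b S β n : ℝ) = ∑ p ∈ range (n + 1), f p := by
      unfold MW
      rw [Finset.card_filter]
      push_cast
      rfl
    have h2 : (MB (cc a b) a S β n : ℝ) = ∑ p ∈ range (n + 1), g p := by
      unfold MB
      rw [Finset.card_filter]
      push_cast
      rfl
    have h3 : ∑ p ∈ range (n + 1), (f p - g p) = f 2 - g 2 := by
      refine Finset.sum_eq_single_of_mem 2 (mem_range.2 (by omega)) fun p _ hp2 => ?_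
      simp only [hf, hg]
      by_cases hp : p.Prime
      · rw [WW_eq ha hb hβ (Or.inl (hp.odd_of_ne_two hp2))]
        exact sub_self _
      · rw [if_neg fun h => hp h.1, if_neg fun h => hp h.1, sub_self]
    rw [Finset.sum_sub_distrib] at h3
    rw [h1, h2]
    linarith

/-- all pairs at once -/
lemma all_pairs {P : ℝ → ℕ → ℤ → Prop}
    (h : ∀ (a : ℕ) (b : ℤ), 1 ≤ |b| → |b| < a → ∀ᵐ β : ℝ, 0 < β → P β a b) :
    ∀ᵐ β : ℝ, 0 < β → ∀ (a : ℕ) (b : ℤ), 1 ≤ |b| → |b| < a → P β a b := by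
  have h' : ∀ (a : ℕ) (b : ℤ), ∀ᵐ β : ℝ, 1 ≤ |b| → |b| < a → 0 < β → P β a b := by
    intro a b
    by_cases hc : 1 ≤ |b| ∧ |b| < a
    · filter_upwards [h a b hc.1 hc.2] with β hβ _ _
      exact hβ
    · exact Eventually.of_forall fun β h1 h2 => absurd ⟨h1, h2⟩ hc
  filter_upwards [ae_all_iff.2 fun a => ae_all_iff.2 (h' a)] with β hβ h0 a b h1 h2
  exact hβ a b h1 h2 h0

lemma loglog_nonneg {n n' : ℕ} (hn : 16 ≤ n) (hnn : n ≤ n') : 0 ≤ Real.log (Real.log n') := by
  refine Real.log_nonneg ?_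
  rw [Real.le_log_iff_exp_le (by
    have : 0 < n' := by omega
    exact_mod_cast this)]
  have h4 := Real.exp_one_lt_d9
  have h5 : (16 : ℝ) ≤ n' := by exact_mod_cast hn.trans hnn
  linarith

/-- the windows and the law of the iterated logarithm, all primes -/
theorem pairs_univ (hW : S_WIN) (hL : S_LIL) (hO : S_OKP) : ∃ C : ℕ → ℤ → ℝ,
    ∀ᵐ β : ℝ, 0 < β → ∀ (a : ℕ) (b : ℤ), 1 ≤ |b| → |b| < a →
      (∀ᶠ n : ℕ in atTop, ∀ n' ≥ n,
        |((MW a b Set.univ β n' : ℝ) - MW a b Set.univ β n) - kap a * Real.log ((n' : ℝ) / n)| ≤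
          C a b * (√(Real.log ((n' : ℝ) / n) * Real.log (Real.log n')) + Real.log (Real.log n'))) ∧
      (∀ᶠ n : ℕ in atTop, |(MW a b Set.univ β n : ℝ) - kap a * Real.log n| ≤
        C a b * √(Real.log n * Real.log (Real.log (Real.log n)))) := by
  have key : ∀ (a : ℕ) (b : ℤ), ∃ C : ℝ, 1 ≤ |b| → |b| < a → ∀ᵐ β : ℝ, 0 < β →
      (∀ᶠ n : ℕ in atTop, ∀ n' ≥ n,
        |((MW a b Set.univ β n' : ℝ) - MW a b Set.univ β n) - kap a * Real.log ((n' : ℝ) / n)| ≤
          C * (√(Real.log ((n' : ℝ) / n) * Real.log (Real.log n')) + Real.log (Real.log n'))) ∧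
      (∀ᶠ n : ℕ in atTop, |(MW a b Set.univ β n : ℝ) - kap a * Real.log n| ≤
        C * √(Real.log n * Real.log (Real.log (Real.log n)))) := by
    intro a b
    by_cases hc : 1 ≤ |b| ∧ |b| < a
    · obtain ⟨h1, h2⟩ := hc
      have ha : 2 ≤ a := by
        have : (1 : ℤ) < a := lt_of_le_of_lt h1 h2
        omega
      obtain ⟨Z, hOk⟩ := hO a b h1 h2
      obtain ⟨C1, hC1, w1⟩ := win_univ hW hOk
      obtain ⟨C2, hC2, w2⟩ := lil_univ hL hOk
      refine ⟨max C1 (C2 + 1), fun _ _ => ?_⟩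
      filter_upwards [w1, w2] with β w1 w2 hβ
      obtain ⟨e, he1, he⟩ := MW_diff ha h1 hβ Set.univ
      constructor
      · filter_upwards [w1 hβ, eventually_ge_atTop 16] with n hn hn16 n' hnn'
        have hn2 : 2 ≤ n := by omega
        rw [he n hn2, he n' (hn2.trans hnn'), add_sub_add_right_eq_sub]
        refine (hn n' hnn').trans (mul_le_mul_of_nonneg_right (le_max_left _ _) ?_)
        have := loglog_nonneg hn16 hnn'
        positivity
      · have hl1 : Tendsto (fun n : ℕ => Real.log (n : ℝ)) atTop atTop :=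
          Real.tendsto_log_atTop.comp tendsto_natCast_atTop_atTop
        have hl2 : Tendsto (fun n : ℕ => Real.log (Real.log (n : ℝ))) atTop atTop :=
          Real.tendsto_log_atTop.comp hl1
        have hl3 : Tendsto (fun n : ℕ => Real.log (Real.log (Real.log (n : ℝ)))) atTop atTop :=
          Real.tendsto_log_atTop.comp hl2
        filter_upwards [w2 hβ, eventually_ge_atTop 2, hl1.eventually_ge_atTop 1,
          hl3.eventually_ge_atTop 1] with n hn hn2 hn3 hn4
        rw [he n hn2]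
        have h3 : 1 ≤ √(Real.log n * Real.log (Real.log (Real.log n))) := by
          rw [Real.one_le_sqrt]
          nlinarith
        have h4 : |(MB (cc a b) a Set.univ β n : ℝ) + e - kap a * Real.log n| ≤
            |(MB (cc a b) a Set.univ β n : ℝ) - kap a * Real.log n| + |e| := by
          have : (MB (cc a b) a Set.univ β n : ℝ) + e - kap a * Real.log n =
            ((MB (cc a b) a Set.univ β n : ℝ) - kap a * Real.log n) + e := by ring
          rw [this]
          exact abs_add_le _ _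
        have h5 := mul_le_mul_of_nonneg_right (le_max_right C1 (C2 + 1)) (zero_le_one.trans h3)
        nlinarith
    · exact ⟨0, fun h1 h2 => absurd ⟨h1, h2⟩ hc⟩
  choose C hC using key
  exact ⟨C, all_pairs hC⟩

/-- the windows and the law of the iterated logarithm, sets of primes -/
theorem pairs_set (hW : S_WIN) (hL : S_LIL) (hO : S_OKP) : ∃ C : ℕ → ℤ → ℝ,
    ∀ S : Set ℕ, Tendsto (fun n => VS S n) atTop atTop →
    ∀ᵐ β : ℝ, 0 < β → ∀ (a : ℕ) (b : ℤ), 1 ≤ |b| → |b| < a →
      (∀ᶠ n : ℕ in atTop, ∀ n' ≥ n,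
        |((MW a b S β n' : ℝ) - MW a b S β n) - kap a * (VS S n' - VS S n)| ≤
          C a b * (√((VS S n' - VS S n) * Real.log (VS S n')) + Real.log (VS S n'))) ∧
      (∀ᶠ n : ℕ in atTop, |(MW a b S β n : ℝ) - kap a * VS S n| ≤
        C a b * √(VS S n * Real.log (Real.log (VS S n)))) := by
  have key : ∀ (a : ℕ) (b : ℤ), ∃ C : ℝ, 1 ≤ |b| → |b| < a → ∀ S : Set ℕ,
      Tendsto (fun n => VS S n) atTop atTop → ∀ᵐ β : ℝ, 0 < β →
      (∀ᶠ n : ℕ in atTop, ∀ n' ≥ n,
        |((MW a b S β n' : ℝ) - MW a b S β n) - kap a * (VS S n' - VS S n)| ≤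
          C * (√((VS S n' - VS S n) * Real.log (VS S n')) + Real.log (VS S n'))) ∧
      (∀ᶠ n : ℕ in atTop, |(MW a b S β n : ℝ) - kap a * VS S n| ≤
        C * √(VS S n * Real.log (Real.log (VS S n)))) := by
    intro a b
    by_cases hc : 1 ≤ |b| ∧ |b| < a
    · obtain ⟨h1, h2⟩ := hc
      have ha : 2 ≤ a := by
        have : (1 : ℤ) < a := lt_of_le_of_lt h1 h2
        omega
      obtain ⟨Z, hOk⟩ := hO a b h1 h2
      obtain ⟨C1, hC1, w1⟩ := hW a Z (cc a b) hOk
      obtain ⟨C2, hC2, w2⟩ := hL a Z (cc a b) hOk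
      refine ⟨max C1 (C2 + 1), fun _ _ S hS => ?_⟩
      filter_upwards [w1 S hS, w2 S hS] with β w1 w2 hβ
      obtain ⟨e, he1, he⟩ := MW_diff ha h1 hβ S
      constructor
      · filter_upwards [w1 hβ, eventually_ge_atTop 16, hS.eventually_ge_atTop 1] with n hn hn16 hn1 n' hnn'
        have hn2 : 2 ≤ n := by omega
        rw [he n hn2, he n' (hn2.trans hnn'), add_sub_add_right_eq_sub]
        refine (hn n' hnn').trans (mul_le_mul_of_nonneg_right (le_max_left _ _) ?_)
        have h3 : VS S n ≤ VS S n' := VS_mono S hnn'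
        have := Real.log_nonneg (hn1.trans h3)
        positivity
      · have hl2 : Tendsto (fun n : ℕ => Real.log (VS S n)) atTop atTop :=
          Real.tendsto_log_atTop.comp hS
        have hl3 : Tendsto (fun n : ℕ => Real.log (Real.log (VS S n))) atTop atTop :=
          Real.tendsto_log_atTop.comp hl2
        filter_upwards [w2 hβ, eventually_ge_atTop 2, hS.eventually_ge_atTop 1,
          hl3.eventually_ge_atTop 1] with n hn hn2 hn3 hn4
        rw [he n hn2]
        have h3 : 1 ≤ √(VS S n * Real.log (Real.log (VS S n))) := by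
          rw [Real.one_le_sqrt]
          nlinarith
        have h4 : |(MB (cc a b) a S β n : ℝ) + e - kap a * VS S n| ≤
            |(MB (cc a b) a S β n : ℝ) - kap a * VS S n| + |e| := by
          have : (MB (cc a b) a S β n : ℝ) + e - kap a * VS S n =
            ((MB (cc a b) a S β n : ℝ) - kap a * VS S n) + e := by ring
          rw [this]
          exact abs_add_le _ _
        have h5 := mul_le_mul_of_nonneg_right (le_max_right C1 (C2 + 1)) (zero_le_one.trans h3)
        nlinarith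
    · exact ⟨0, fun h1 h2 => absurd ⟨h1, h2⟩ hc⟩
  choose C hC using key
  refine ⟨C, fun S hS => all_pairs fun a b h1 h2 => hC a b h1 h2 S hS⟩

end Pool.Agent.N176.SH
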