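import Mathlib
import Pool.Agent.N176.SH.Stm
import Pool.Agent.H447R2.ML.Spec

set_option autoImplicit false

/-!
# The special values, for all primes (proof by helper614)
-/

namespace Pool.Agent.N176.SH

open Pool.Agent.H447R2.ML (rough_quot quot_real)
open Pool.Agent.H305R2 (roughPart)

theorem spe {a : ℕ} {b : ℤ} (hba : |b| < a) (hco : IsCoprime (a : ℤ) b) {p : ℕ} (hp : p.Prime)
    (hpd : ¬ (p : ℤ) ∣ a - b) :
    (WW a b (1 / ((a : ℝ) - b)) p : ℤ) * (a - b) = (a : ℤ) ^ p - b ^ p := by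
  have h1 : -(a : ℤ) < b := (abs_lt.1 hba).1
  have h2 : b < (a : ℤ) := (abs_lt.1 hba).2
  have hq := quot_real (a := (a : ℤ)) (b := b) h2 p
  have hgeom : (∑ i ∈ Finset.range p, (a : ℤ) ^ i * b ^ (p - 1 - i)) * ((a : ℤ) - b) =
      (a : ℤ) ^ p - b ^ p := (Commute.all (a : ℤ) b).geom_sum₂_mul p
  have hr := rough_quot hco h1 h2 hp hpd (x := ((∑ i ∈ Finset.range p,
    (a : ℤ) ^ i * b ^ (p - 1 - i) : ℤ) : ℝ)) hq
  generalize (∑ i ∈ Finset.range p, (a : ℤ) ^ i * b ^ (p - 1 - i)) = M at hq hgeom hr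
  rw [← hgeom]
  congr 1
  rw [← hr]
  unfold WW
  have e : (1 / ((a : ℝ) - b)) * (a : ℝ) ^ p = (b : ℝ) ^ p / ((a : ℝ) - b) + (M : ℝ) := by
    rw [hq]
    push_cast
    ring
  have e2 : ⌊(M : ℝ)⌋₊ = M.toNat := by
    rw [← Int.floor_toNat, Int.floor_intCast]
  rw [e, Int.ceil_add_intCast, add_sub_cancel_left, e2]

end Pool.Agent.N176.SH
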