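import Mathlib
import Pool.Agent.N176.OW.All
import Pool.Agent.N176.SH.Stm
import Pool.Agent.N176.SH.EX
import Pool.Agent.N176.SH.BL
import Pool.Agent.N176.SH.Pairs
import Pool.Agent.N441.SH.TUA
import Pool.Agent.N34.SH.TU
import Pool.Agent.N286.SH.DS
import Pool.Agent.N833.SH.E4
import Pool.Agent.N897.SH.RB
import Pool.Agent.N933.SH.SM
import Pool.Agent.N607.SH.GC
import Pool.Agent.N176.SH.Spe

set_option autoImplicit false

/-!
# Shifted digits: assembly
-/

namespace Pool.Agent.N176.SH.All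

open Pool.Agent.N176.SH

theorem tua : S_TUA := Pool.Agent.N441.SH.tua (Pool.Agent.N136.OW.sv2 Pool.Agent.N75.OW.sg)
theorem tu : S_TU := Pool.Agent.N34.SH.tu tua
theorem e4 : S_E4 := Pool.Agent.N833.SH.e4 tu Pool.Agent.N286.SH.ds
theorem ex : S_EX := Pool.Agent.N176.SH.EX.ex e4 Pool.Agent.N897.SH.rb Pool.Agent.N833.SH.mh
theorem sm : S_SM := Pool.Agent.N933.SH.sm e4 Pool.Agent.N897.SH.rb Pool.Agent.N833.SH.mh
theorem bl : S_BL := Pool.Agent.N176.SH.BL.bl ex sm
theorem gc : S_GC := Pool.Agent.N607.SH.gc Pool.Agent.N176.OW.All.fm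
theorem win' : S_WIN := win bl ex gc
theorem lil' : S_LIL := lil bl ex gc

end Pool.Agent.N176.SH.All
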